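import Pool.Agent.Helper14.Rsl.Main
import Pool.Agent.Helper6.Rsl.FMK
import Pool.Agent.Helper6.Rsl.OfBuild

/-! # The theorem with black edges -/

set_option autoImplicit false
open Classical Finset

namespace Pool.Agent.Helper14.Rsl

open Pool.Agent.Helper30.TwoTree Pool.Agent.Helper6.Rsl

/-- Every graph built (with black edges) from an initial graph with `ex (n) = O (n^(3/2))` is Ramsey
size linear. -/
theorem mainK {V : Type} [Fintype V] (T K : SimpleGraph V) (r : V → ℕ) (A : Set V)
    (hB : BuildK T K r A) (hA : ExThreeHalves (T.induce A)) : RSL T := by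
  obtain ⟨c0, hc0, hc⟩ := transfer' hA
  refine rsl_of_FM T (KB (Fintype.card V) c0) (one_le_KB _ c0) ?_
  intro X _ Γ hno S i hi
  have h := first_momentK hB c0 hc0 Γ (fun Γ' S' _ hS' hlt => hc X Γ' S' hS' hlt) hno S i hi
  push_cast at h
  exact h

end Pool.Agent.Helper14.Rsl
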