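import Pool.Agent.Helper14.Rsl.Defs
import Pool.Agent.Helper30.TwoTree.Greedy

/-! # The hypothesis on the initial graph, for graphs supported on a set of vertices -/

set_option autoImplicit false
open Classical Finset

namespace Pool.Agent.Helper14.Rsl

open Pool.Agent.Helper30.TwoTree

set_option linter.unusedSectionVars false

/-- Twice the number of edges is the number of ordered adjacent pairs. -/
theorem card_prs {X : Type} [Fintype X] (Γ : SimpleGraph X) :
    (prs Γ).card = 2 * Γ.edgeSet.ncard := by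
  have h1 := Γ.sum_degrees_eq_twice_card_edges
  have h2 : (prs Γ).card = ∑ u, Γ.degree u := by
    have h3 : (prs Γ).card = ((univ : Finset X).sigma (fun u => univ.filter (fun w => Γ.Adj u w))).card := by
      refine Finset.card_bij (fun p _ => ⟨p.1, p.2⟩) ?_ ?_ ?_
      · rintro ⟨u, w⟩ hp
        simp only [prs, mem_filter, mem_univ, true_and] at hp
        simp only [mem_sigma, mem_filter, mem_univ, true_and]
        exact hp
      · rintro ⟨u, w⟩ _ ⟨u', w'⟩ _ h
        simp only [Sigma.mk.injEq, heq_eq_eq] at h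
        rw [h.1, h.2]
      · rintro ⟨u, w⟩ hp
        simp only [mem_sigma, mem_filter, mem_univ, true_and] at hp
        exact ⟨(u, w), by simp only [prs, mem_filter, mem_univ, true_and]; exact hp, rfl⟩
    rw [h3, Finset.card_sigma]
    refine Finset.sum_congr rfl fun u _ => ?_
    rw [← SimpleGraph.card_neighborFinset_eq_degree]
    congr 1
    ext a
    simp
  rw [h2, h1, ← SimpleGraph.coe_edgeFinset, Set.ncard_coe_finset]

/-- The hypothesis `ExThreeHalves` for graphs on `X` whose edges lie in `S`. -/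
theorem transfer {A : Type} {G₀ : SimpleGraph A} (h : ExThreeHalves G₀) :
    ∃ c : ℝ, 0 ≤ c ∧ ∀ (X : Type) [Fintype X] (Γ : SimpleGraph X) (S : Finset X),
      (∀ a b, Γ.Adj a b → a ∈ S) → c * (S.card : ℝ) ^ 3 < ((prs Γ).card : ℝ) ^ 2 →
        ∃ f : A → X, (∀ a, f a ∈ S) ∧ Function.Injective f ∧
          ∀ a b : A, G₀.Adj a b → Γ.Adj (f a) (f b) := by
  obtain ⟨c, hc⟩ := h
  refine ⟨4 * max c 0, by positivity, ?_⟩
  intro X _ Γ S hS hlt
  set e : S ≃ Fin S.card := S.equivFin with he
  set g : Fin S.card → X := fun i => ((e.symm i : S) : X) with hg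
  have hginj : Function.Injective g := by
    intro a b hab
    exact e.symm.injective (Subtype.ext hab)
  set Γ' : SimpleGraph (Fin S.card) := Γ.comap g with hΓ'
  have h1 : (prs Γ').card = (prs Γ).card := by
    refine Finset.card_bij (fun p _ => (g p.1, g p.2)) ?_ ?_ ?_
    · rintro ⟨u, w⟩ hp
      simp only [prs, mem_filter, mem_univ, true_and] at hp ⊢
      exact hp
    · rintro ⟨u, w⟩ _ ⟨u', w'⟩ _ h
      simp only [Prod.mk.injEq] at h
      rw [hginj h.1, hginj h.2]
    · rintro ⟨u, w⟩ hp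
      simp only [prs, mem_filter, mem_univ, true_and] at hp
      have hu := hS u w hp
      have hw := hS w u hp.symm
      refine ⟨(e ⟨u, hu⟩, e ⟨w, hw⟩), ?_, ?_⟩
      · simp only [prs, mem_filter, mem_univ, true_and, hΓ', SimpleGraph.comap_adj, hg,
          Equiv.symm_apply_apply]
        exact hp
      · simp only [hg, Equiv.symm_apply_apply]
  rw [card_prs] at h1
  obtain ⟨f, hf1, hf2⟩ := hc S.card Γ' (by
    have h2 : ((prs Γ).card : ℝ) = 2 * (Γ'.edgeSet.ncard : ℝ) := by
      rw [← h1]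
      push_cast
      rfl
    rw [h2] at hlt
    have h3 : c * (S.card : ℝ) ^ 3 ≤ max c 0 * (S.card : ℝ) ^ 3 :=
      mul_le_mul_of_nonneg_right (le_max_left _ _) (by positivity)
    nlinarith)
  exact ⟨fun a => g (f a), fun a => (e.symm (f a)).2, hginj.comp hf1, fun a b hab => hf2 a b hab⟩

/-- The form used in the first moment argument: the initial graph is an induced subgraph. -/
theorem transfer' {V : Type} {T : SimpleGraph V} {A : Set V} (h : ExThreeHalves (T.induce A)) :
    ∃ c : ℝ, 0 ≤ c ∧ ∀ (X : Type) [Fintype X] (Γ : SimpleGraph X) (S : Finset X),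
      (∀ a b, Γ.Adj a b → a ∈ S) → c * (S.card : ℝ) ^ 3 < ((prs Γ).card : ℝ) ^ 2 →
        ∃ f : V → X, (∀ a ∈ A, f a ∈ S) ∧ (∀ a ∈ A, ∀ b ∈ A, f a = f b → a = b) ∧
          (∀ a ∈ A, ∀ b ∈ A, T.Adj a b → Γ.Adj (f a) (f b)) := by
  obtain ⟨c, hc0, hc⟩ := transfer h
  refine ⟨c, hc0, ?_⟩
  intro X _ Γ S hS hlt
  obtain ⟨f, hfS, hfinj, hfadj⟩ := hc X Γ S hS hlt
  have hne : Nonempty X := by
    by_contra hX
    have hX' : IsEmpty X := not_nonempty_iff.mp hX
    have h1 : prs Γ = ∅ := Finset.eq_empty_of_isEmpty _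
    rw [h1] at hlt
    simp only [card_empty, Nat.cast_zero] at hlt
    have h2 : 0 ≤ c * (S.card : ℝ) ^ 3 := by positivity
    nlinarith
  obtain ⟨x0⟩ := hne
  refine ⟨fun v => if h : v ∈ A then f ⟨v, h⟩ else x0, ?_, ?_, ?_⟩
  · intro a ha
    simp only [ha, dif_pos]
    exact hfS _
  · intro a ha b hb hab
    simp only [ha, hb, dif_pos] at hab
    have := hfinj hab
    simpa using this
  · intro a ha b hb hab
    simp only [ha, hb, dif_pos]
    exact hfadj ⟨a, ha⟩ ⟨b, hb⟩ hab

end Pool.Agent.Helper14.Rsl
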