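import Pool.Agent.Helper14.Rsl.Moment
import Pool.Agent.Helper14.Rsl.Transfer

/-! # Bipartite graphs with small degrees on one side, up to two vertices -/

set_option autoImplicit false
open Classical Finset

namespace Pool.Agent.Helper14.Rsl

open Pool.Agent.Helper30.TwoTree

set_option linter.unusedSectionVars false

/-- `G₀` is bipartite with classes `X` and its complement, and all but at most two vertices outside
`X` have at most two neighbours. -/
def TwoApex {A : Type} (G₀ : SimpleGraph A) : Prop :=
  ∃ X P : Set A, P.encard ≤ 2 ∧ (∀ a b, G₀.Adj a b → (a ∈ X ↔ b ∉ X)) ∧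
    ∀ v, v ∉ X → v ∉ P → {w : A | G₀.Adj v w}.encard ≤ 2

section embed

variable {A Y : Type} [Fintype A] [Fintype Y]

theorem inj_two (P : Set A) (hP : P.encard ≤ 2) (p q : Y) (hpq : p ≠ q) :
    ∃ h : A → Y, (∀ v, h v = p ∨ h v = q) ∧ ∀ v ∈ P, ∀ v' ∈ P, h v = h v' → v = v' := by
  by_cases hne : ∃ a, a ∈ P
  · obtain ⟨a, ha⟩ := hne
    refine ⟨fun v => if v = a then p else q, fun v => ?_, ?_⟩
    · by_cases h1 : v = a
      · left; simp [h1]
      · right; simp [h1]
    · intro v hv v' hv' h
      by_cases h1 : v = a
      · by_cases h2 : v' = a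
        · rw [h1, h2]
        · simp only [h1, h2, if_true, if_false] at h
          exact absurd h hpq
      · by_cases h2 : v' = a
        · simp only [h1, h2, if_true, if_false] at h
          exact absurd h.symm hpq
        · by_contra h3
          have h4 : ({a, v, v'} : Set A) ⊆ P := by
            intro x hx
            simp only [Set.mem_insert_iff, Set.mem_singleton_iff] at hx
            rcases hx with rfl | rfl | rfl
            exacts [ha, hv, hv']
          have h5 := (Set.encard_le_encard h4).trans hP
          rw [Set.encard_insert_of_notMem (by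
            simp only [Set.mem_insert_iff, Set.mem_singleton_iff, not_or]
            exact ⟨fun h => h1 h.symm, fun h => h2 h.symm⟩), Set.encard_pair h3] at h5
          norm_num at h5
  · push Not at hne
    exact ⟨fun _ => p, fun _ => .inl rfl, fun v hv => absurd hv (hne v)⟩

/-- A set with at most two elements lies in a pair. -/
theorem pair_of_two {N : Set A} (hN : N.encard ≤ 2) {g : A → Y} {B : Finset Y}
    (hg : ∀ w ∈ N, g w ∈ B) (hB : 2 ≤ B.card) :
    ∃ x ∈ B, ∃ x' ∈ B, x ≠ x' ∧ ∀ w ∈ N, g w = x ∨ g w = x' := by
  have hother : ∀ x ∈ B, ∃ x' ∈ B, x ≠ x' := by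
    intro x hx
    obtain ⟨x', hx', hne⟩ := Finset.exists_mem_ne (by omega : 1 < B.card) x
    exact ⟨x', hx', hne.symm⟩
  by_cases h1 : ∃ a, a ∈ N
  · obtain ⟨a, ha⟩ := h1
    by_cases h2 : ∃ b ∈ N, g b ≠ g a
    · obtain ⟨b, hb, hne⟩ := h2
      refine ⟨g a, hg a ha, g b, hg b hb, hne.symm, fun w hw => ?_⟩
      by_contra h3
      push Not at h3
      have h4 : ({w, a, b} : Set A) ⊆ N := by
        intro x hx
        simp only [Set.mem_insert_iff, Set.mem_singleton_iff] at hx
        rcases hx with rfl | rfl | rfl
        exacts [hw, ha, hb]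
      have h5 := (Set.encard_le_encard h4).trans hN
      have h6 : w ≠ a := fun h => h3.1 (by rw [h])
      have h7 : w ≠ b := fun h => h3.2 (by rw [h])
      have h8 : a ≠ b := fun h => hne (by rw [h])
      rw [Set.encard_insert_of_notMem (by simp [h6, h7]), Set.encard_pair h8] at h5
      norm_num at h5
    · push Not at h2
      obtain ⟨x', hx', hne⟩ := hother (g a) (hg a ha)
      exact ⟨g a, hg a ha, x', hx', hne, fun w hw => .inl (h2 w hw)⟩
  · push Not at h1
    obtain ⟨x, hx⟩ := Finset.card_pos.1 (by omega : 0 < B.card)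
    obtain ⟨x', hx', hne⟩ := hother x hx
    exact ⟨x, hx, x', hx', hne, fun w hw => absurd hw (h1 w)⟩

theorem host_embed (G₀ : SimpleGraph A) (hG : TwoApex G₀) (Γ : SimpleGraph Y) (s : ℕ)
    (hs : Fintype.card A < s) (hH : Host s Γ) :
    ∃ f : A → Y, Function.Injective f ∧ ∀ a b : A, G₀.Adj a b → Γ.Adj (f a) (f b) := by
  obtain ⟨X, P, hP, hbip, hdeg⟩ := hG
  obtain ⟨p, q, hpq, B, hB, hBs, hheavy⟩ := hH
  rcases isEmpty_or_nonempty A with hA | hA
  · exact ⟨fun a => hA.elim a, fun a => hA.elim a, fun a => hA.elim a⟩
  have hA1 : 0 < Fintype.card A := Fintype.card_pos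
  have hB2 : 2 ≤ B.card := by omega
  have hpB : p ∉ B := by
    intro h
    have := (mem_cn.1 (hB h)).1
    exact Γ.loopless.irrefl _ this
  have hqB : q ∉ B := by
    intro h
    have := (mem_cn.1 (hB h)).2
    exact Γ.loopless.irrefl _ this
  obtain ⟨e⟩ : Nonempty (A ↪ B) := by
    apply Function.Embedding.nonempty_of_card_le
    rw [Fintype.card_coe]
    omega
  obtain ⟨hp, hp1, hp2⟩ := inj_two P hP p q hpq
  set f0 : A → Y := fun v => if v ∈ X then (e v : Y) else hp v with hf0
  have f0X : ∀ v ∈ X, f0 v = (e v : Y) := fun v hv => by simp only [hf0, if_pos hv]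
  have f0P : ∀ v ∉ X, f0 v = hp v := fun v hv => by simp only [hf0, if_neg hv]
  -- greedy extension
  have key : ∀ R : Finset A, (∀ v ∈ R, v ∉ X ∧ v ∉ P) →
      ∃ f : A → Y, (∀ v, v ∈ X ∨ v ∈ P → f v = f0 v) ∧
        (∀ v v', (v ∈ X ∨ v ∈ P ∨ v ∈ R) → (v' ∈ X ∨ v' ∈ P ∨ v' ∈ R) → f v = f v' → v = v') ∧
        ∀ v ∈ R, ∀ w, G₀.Adj v w → Γ.Adj (f v) (f w) := by
    intro R
    induction R using Finset.induction_on with
    | empty =>
      intro _
      refine ⟨f0, fun _ _ => rfl, ?_, fun v hv => absurd hv (Finset.notMem_empty v)⟩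
      intro v v' hv hv' h
      have hv : v ∈ X ∨ v ∈ P := by
        rcases hv with h | h | h
        · exact .inl h
        · exact .inr h
        · exact absurd h (Finset.notMem_empty v)
      have hv' : v' ∈ X ∨ v' ∈ P := by
        rcases hv' with h | h | h
        · exact .inl h
        · exact .inr h
        · exact absurd h (Finset.notMem_empty v')
      by_cases h1 : v ∈ X
      · by_cases h2 : v' ∈ X
        · rw [f0X v h1, f0X v' h2] at h
          exact e.injective (Subtype.ext h)
        · rw [f0X v h1, f0P v' h2] at h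
          have h3 : (e v : Y) ∈ B := (e v).2
          rcases hp1 v' with h4 | h4
          · rw [h, h4] at h3
            exact absurd h3 hpB
          · rw [h, h4] at h3
            exact absurd h3 hqB
      · by_cases h2 : v' ∈ X
        · rw [f0P v h1, f0X v' h2] at h
          have h3 : (e v' : Y) ∈ B := (e v').2
          rcases hp1 v with h4 | h4
          · rw [← h, h4] at h3
            exact absurd h3 hpB
          · rw [← h, h4] at h3
            exact absurd h3 hqB
        · rw [f0P v h1, f0P v' h2] at h
          exact hp2 v (hv.resolve_left h1) v' (hv'.resolve_left h2) h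
    | insert v R hvR ih =>
      intro hR
      obtain ⟨f, f1, f2, f3⟩ := ih fun w hw => hR w (Finset.mem_insert_of_mem hw)
      obtain ⟨hvX, hvP⟩ := hR v (Finset.mem_insert_self v R)
      have hNX : ∀ w, G₀.Adj v w → w ∈ X := by
        intro w hw
        by_contra h
        exact hvX ((hbip v w hw).2 h)
      obtain ⟨x, hx, x', hx', hne, hall⟩ := pair_of_two (hdeg v hvX hvP) (g := fun w => (e w : Y))
        (B := B) (fun w _ => (e w).2) hB2
      obtain ⟨z, hz, hzU⟩ : ∃ z ∈ cn Γ x x', z ∉ univ.image f := by
        by_contra hcon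
        push Not at hcon
        have h1 := Finset.card_le_card (show cn Γ x x' ⊆ univ.image f from hcon)
        have h2 : (univ.image f).card ≤ Fintype.card A := by
          rw [← Finset.card_univ]; exact Finset.card_image_le
        have h3 := hheavy x hx x' hx' hne
        omega
      have hzf : ∀ a, f a ≠ z := fun a h => hzU (Finset.mem_image.2 ⟨a, Finset.mem_univ _, h⟩)
      have hz' := mem_cn.1 hz
      refine ⟨Function.update f v z, ?_, ?_, ?_⟩
      · intro w hw
        have : w ≠ v := by
          rintro rfl
          rcases hw with h | h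
          · exact hvX h
          · exact hvP h
        rw [Function.update_of_ne this]
        exact f1 w hw
      · intro a b ha hb hab
        have hred : ∀ c, c ≠ v → (c ∈ X ∨ c ∈ P ∨ c ∈ insert v R) → (c ∈ X ∨ c ∈ P ∨ c ∈ R) := by
          intro c hc h
          rcases h with h | h | h
          · exact .inl h
          · exact .inr (.inl h)
          · exact .inr (.inr (Finset.mem_of_mem_insert_of_ne h hc))
        by_cases hav : a = v
        · by_cases hbv : b = v
          · rw [hav, hbv]
          · rw [hav, Function.update_self, Function.update_of_ne hbv] at hab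
            exact absurd hab.symm (hzf b)
        · by_cases hbv : b = v
          · rw [hbv, Function.update_self, Function.update_of_ne hav] at hab
            exact absurd hab (hzf a)
          · rw [Function.update_of_ne hav, Function.update_of_ne hbv] at hab
            exact f2 a b (hred a hav ha) (hred b hbv hb) hab
      · intro a ha w haw
        by_cases hav : a = v
        · have hwv : w ≠ v := by
            rintro rfl
            exact G₀.loopless.irrefl _ (hav ▸ haw)
          rw [hav] at haw
          rw [hav, Function.update_self, Function.update_of_ne hwv]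
          have hwX := hNX w haw
          rw [f1 w (.inl hwX), f0X w hwX]
          rcases hall w haw with h | h
          · have h' : (e w : Y) = x := h
            rw [h']
            exact hz'.1.symm
          · have h' : (e w : Y) = x' := h
            rw [h']
            exact hz'.2.symm
        · have haR := Finset.mem_of_mem_insert_of_ne ha hav
          have hwv : w ≠ v := by
            rintro rfl
            exact hvX ((hbip w a haw.symm).2 (hR a ha).1)
          rw [Function.update_of_ne hav, Function.update_of_ne hwv]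
          exact f3 a haR w haw
  obtain ⟨f, f1, f2, f3⟩ := key (univ.filter fun v => v ∉ X ∧ v ∉ P)
    fun v hv => (Finset.mem_filter.1 hv).2
  have hall : ∀ v, v ∈ X ∨ v ∈ P ∨ v ∈ univ.filter fun v => v ∉ X ∧ v ∉ P := by
    intro v
    by_cases h1 : v ∈ X
    · exact .inl h1
    · by_cases h2 : v ∈ P
      · exact .inr (.inl h2)
      · exact .inr (.inr (by simp [h1, h2]))
  have hone : ∀ a b, a ∉ X → b ∈ X → G₀.Adj a b → Γ.Adj (f a) (f b) := by
    intro a b ha hb hab
    by_cases h1 : a ∈ P
    · rw [f1 a (.inr h1), f1 b (.inl hb), f0X b hb, f0P a ha]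
      have h2 := mem_cn.1 (hB (e b).2)
      rcases hp1 a with h3 | h3
      · rw [h3]; exact h2.1
      · rw [h3]; exact h2.2
    · exact f3 a (by simp [ha, h1]) b hab
  refine ⟨f, fun a b h => f2 a b (hall a) (hall b) h, fun a b hab => ?_⟩
  by_cases ha : a ∈ X
  · have hb : b ∉ X := (hbip a b hab).1 ha
    exact (hone b a hb ha hab.symm).symm
  · have hb : b ∈ X := by
      by_contra h
      exact ha ((hbip a b hab).2 h)
    exact hone a b ha hb hab

end embed

/-- Graphs without a copy of such a graph have `O(n^(3/2))` edges. -/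
theorem exThreeHalves_of_twoApex {A : Type} [Fintype A] {G₀ : SimpleGraph A} (hG : TwoApex G₀) :
    ExThreeHalves G₀ := by
  set s : ℕ := Fintype.card A + 1 with hs
  refine ⟨3 / 4 * (s : ℝ) ^ 2, ?_⟩
  intro n Γ hlt
  apply host_embed G₀ hG Γ s (by omega)
  by_contra hno
  have h1 := heavy_or s (by omega) Γ univ (fun a _ _ => Finset.mem_univ a) (by
    intro p q hpq B hB hBs
    by_contra hcon
    push Not at hcon
    exact hno ⟨p, q, hpq, B, hB, hBs, hcon⟩)
  have h2 := sq_sum_le (univ : Finset (Fin n))
    (fun u => ((univ.filter (fun w => Γ.Adj u w)).card : ℝ))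
  have h3 : (∑ u : Fin n, ((univ.filter (fun w => Γ.Adj u w)).card : ℝ)) =
      2 * (Γ.edgeSet.ncard : ℝ) := by
    have h4 := card_prs Γ
    have h5 : (prs Γ).card = ∑ u : Fin n, (univ.filter (fun w => Γ.Adj u w)).card := by
      rw [← Finset.card_sigma]
      refine Finset.card_bij (fun p _ => ⟨p.1, p.2⟩) ?_ ?_ ?_
      · rintro ⟨u, w⟩ hp
        simp only [prs, mem_filter, mem_univ, true_and] at hp
        simp only [mem_sigma, mem_filter, mem_univ, true_and]
        exact hp
      · rintro ⟨u, w⟩ _ ⟨u', w'⟩ _ h
        simp only [Sigma.mk.injEq, heq_eq_eq] at h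
        rw [h.1, h.2]
      · rintro ⟨u, w⟩ hp
        simp only [mem_sigma, mem_filter, mem_univ, true_and] at hp
        exact ⟨(u, w), by simp only [prs, mem_filter, mem_univ, true_and]; exact hp, rfl⟩
    rw [h4] at h5
    have h6 := congrArg (Nat.cast (R := ℝ)) h5
    push_cast at h6
    linarith
  rw [Finset.card_univ, Fintype.card_fin] at h1 h2
  rw [h3] at h2
  have hn : (0 : ℝ) ≤ n := Nat.cast_nonneg n
  have h4 := mul_le_mul_of_nonneg_left h1 hn
  nlinarith

end Pool.Agent.Helper14.Rsl
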