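import Pool.Agent.Helper14.Rsl.Crit
import Pool.Agent.Helper14.Rsl.Transfer

/-! # Assembly: from the first moment bound to Ramsey size linearity -/

set_option autoImplicit false
open Classical Finset

namespace Pool.Agent.Helper14.Rsl

open Pool.Agent.Helper30.TwoTree

set_option linter.unusedSectionVars false

/-- `G` is Ramsey size linear. -/
def RSL {V : Type} (G : SimpleGraph V) : Prop :=
  ∃ C : ℕ, ∀ (W : Type) [Fintype W] (H : SimpleGraph W), (∀ w : W, ∃ w' : W, H.Adj w w') →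
    ∀ N : ℕ, C * H.edgeSet.ncard ≤ N → ∀ F : SimpleGraph (Fin N),
      (∃ f : V → Fin N, Function.Injective f ∧ ∀ a b : V, G.Adj a b → F.Adj (f a) (f b)) ∨
      (∃ g : W → Fin N, Function.Injective g ∧ ∀ a b : W, H.Adj a b → Fᶜ.Adj (g a) (g b))

/-- If all graphs without a copy of `G` satisfy the first moment bound with the same constant, then
`G` is Ramsey size linear. -/
theorem rsl_of_FM {V : Type} (G : SimpleGraph V) (K : ℝ) (hK : 1 ≤ K)
    (h : ∀ (X : Type) [Fintype X] (Γ : SimpleGraph X),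
      (¬ ∃ f : V → X, Function.Injective f ∧ ∀ a b : V, G.Adj a b → Γ.Adj (f a) (f b)) →
        FM K Γ) : RSL G := by
  refine ⟨⌈96 * K⌉₊, ?_⟩
  intro W _ H hH N hN F
  by_cases hno : ∃ f : V → Fin N, Function.Injective f ∧ ∀ a b : V, G.Adj a b → F.Adj (f a) (f b)
  · exact Or.inl hno
  · refine Or.inr ?_
    obtain ⟨g, hg, hgadj⟩ := crit H hH K hK F (h (Fin N) F hno) (by
      rw [Fintype.card_fin]
      have h1 : ((⌈96 * K⌉₊ * H.edgeSet.ncard : ℕ) : ℝ) ≤ (N : ℝ) := by exact_mod_cast hN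
      push_cast at h1
      refine le_trans ?_ h1
      exact mul_le_mul_of_nonneg_right (Nat.le_ceil _) (Nat.cast_nonneg _))
    refine ⟨g, hg, ?_⟩
    intro a b hab
    rw [SimpleGraph.compl_adj]
    exact ⟨fun h => hab.ne (hg h), hgadj a b hab⟩

/-- Ramsey size linearity passes to subgraphs. -/
theorem RSL.mono {V V' : Type} {G : SimpleGraph V} {T : SimpleGraph V'} (hT : RSL T)
    (e : V → V') (he : Function.Injective e) (hG : ∀ a b, G.Adj a b → T.Adj (e a) (e b)) :
    RSL G := by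
  obtain ⟨C, hC⟩ := hT
  refine ⟨C, ?_⟩
  intro W _ H hH N hN F
  rcases hC W H hH N hN F with ⟨f, hf, hfa⟩ | h
  · exact Or.inl ⟨fun a => f (e a), hf.comp he, fun a b hab => hfa _ _ (hG a b hab)⟩
  · exact Or.inr h

end Pool.Agent.Helper14.Rsl
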