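import Pool.Agent.Helper30.TwoTree.Greedy

/-! # The triangle core of a graph

`core s Γ` is the largest subgraph of `Γ` in which every edge lies in at least `s` triangles. The
number of triangles of `Γ` that are not triangles of the core is small (peeling), so that the second
moment of the degrees of the other edges is small when `Γ` has no large independent set. -/

set_option autoImplicit false
open Classical Finset

namespace Pool.Agent.Helper14.Rsl

open Pool.Agent.Helper30.TwoTree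

set_option linter.unusedSectionVars false

variable {X : Type} [Fintype X]

/-- Common neighbours. -/
noncomputable def cn (Γ : SimpleGraph X) (x y : X) : Finset X :=
  univ.filter (fun z => Γ.Adj x z ∧ Γ.Adj y z)

theorem mem_cn {Γ : SimpleGraph X} {x y z : X} : z ∈ cn Γ x y ↔ Γ.Adj x z ∧ Γ.Adj y z := by
  simp [cn]

theorem cn_comm (Γ : SimpleGraph X) (x y : X) : cn Γ x y = cn Γ y x := by
  ext z
  rw [mem_cn, mem_cn, and_comm]

theorem cn_mono {Γ Γ' : SimpleGraph X} (h : Γ ≤ Γ') (x y : X) : cn Γ x y ⊆ cn Γ' x y := by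
  intro z hz
  rw [mem_cn] at hz ⊢
  exact ⟨h hz.1, h hz.2⟩

/-- Every edge is in at least `s` triangles. -/
def Rich (s : ℕ) (Γ : SimpleGraph X) : Prop := ∀ x y, Γ.Adj x y → s ≤ (cn Γ x y).card

/-- The largest subgraph in which every edge is in at least `s` triangles. -/
def core (s : ℕ) (Γ : SimpleGraph X) : SimpleGraph X where
  Adj x y := ∃ Γ' : SimpleGraph X, Γ' ≤ Γ ∧ Rich s Γ' ∧ Γ'.Adj x y
  symm := ⟨fun _ _ ⟨Γ', h1, h2, h3⟩ => ⟨Γ', h1, h2, h3.symm⟩⟩
  loopless := ⟨fun a ⟨Γ', _, _, h⟩ => Γ'.loopless.irrefl a h⟩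

theorem core_le (s : ℕ) (Γ : SimpleGraph X) : core s Γ ≤ Γ := by
  rintro x y ⟨Γ', h1, _, h3⟩
  exact h1 h3

theorem le_core {s : ℕ} {Γ Γ' : SimpleGraph X} (h : Γ' ≤ Γ) (hr : Rich s Γ') :
    Γ' ≤ core s Γ := fun _ _ hxy => ⟨Γ', h, hr, hxy⟩

theorem core_rich (s : ℕ) (Γ : SimpleGraph X) : Rich s (core s Γ) := by
  rintro x y ⟨Γ', h1, h2, h3⟩
  exact (h2 x y h3).trans (card_le_card (cn_mono (le_core h1 h2) x y))

/-- Deleting an edge that is in at most `n` triangles. -/
theorem del_edge (Γ : SimpleGraph X) (n : ℕ) {x y : X} (hxy : Γ.Adj x y)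
    (hc : (cn Γ x y).card ≤ n) :
    ∃ Γ' : SimpleGraph X, Γ' ≤ Γ ∧
      (∀ a b, Γ.Adj a b → ¬ (a = x ∧ b = y) → ¬ (a = y ∧ b = x) → Γ'.Adj a b) ∧
      (prs Γ').card + 2 ≤ (prs Γ).card ∧ (tri Γ).card ≤ (tri Γ').card + 6 * n := by
  set Γ' : SimpleGraph X :=
    { Adj := fun a b => Γ.Adj a b ∧ ¬ (a = x ∧ b = y) ∧ ¬ (a = y ∧ b = x)
      symm := ⟨by
        intro a b h
        exact ⟨h.1.symm, fun h' => h.2.2 ⟨h'.2, h'.1⟩, fun h' => h.2.1 ⟨h'.2, h'.1⟩⟩⟩
      loopless := ⟨by
        intro a h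
        exact Γ.loopless.irrefl a h.1⟩ } with hΓ'
  have hle : Γ' ≤ Γ := fun a b h => h.1
  refine ⟨Γ', hle, fun a b h1 h2 h3 => ⟨h1, h2, h3⟩, ?_, ?_⟩
  · have h1 : prs Γ' ∪ {(x, y), (y, x)} ⊆ prs Γ := by
      intro p hp
      simp only [prs, mem_union, mem_filter, mem_univ, true_and, mem_insert, mem_singleton] at hp ⊢
      rcases hp with hp | hp | hp
      · exact hp.1
      · rw [hp]; exact hxy
      · rw [hp]; exact hxy.symm
    have h2 : Disjoint (prs Γ') {(x, y), (y, x)} := by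
      rw [Finset.disjoint_left]
      intro p hp hp'
      simp only [prs, mem_filter, mem_univ, true_and, mem_insert, mem_singleton] at hp hp'
      rcases hp' with hp' | hp'
      · exact hp.2.1 (by rw [hp']; exact ⟨rfl, rfl⟩)
      · exact hp.2.2 (by rw [hp']; exact ⟨rfl, rfl⟩)
    have h3 := Finset.card_le_card h1
    rw [Finset.card_union_of_disjoint h2, Finset.card_pair (by
      intro h
      have := congrArg Prod.fst h
      exact hxy.ne this)] at h3
    exact h3
  · set C : Finset X := cn Γ x y with hC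
    have hmem : ∀ z, Γ.Adj x z → Γ.Adj y z → z ∈ C := fun z h1 h2 => mem_cn.2 ⟨h1, h2⟩
    have h1 : tri Γ ⊆ tri Γ' ∪ (C.image (fun z => (x, y, z)) ∪ C.image (fun z => (y, x, z)) ∪
        C.image (fun z => (x, z, y)) ∪ C.image (fun z => (y, z, x)) ∪
        C.image (fun z => (z, x, y)) ∪ C.image (fun z => (z, y, x))) := by
      rintro ⟨a, b, c⟩ hp
      simp only [tri, mem_filter, mem_univ, true_and] at hp
      obtain ⟨hab, hac, hbc⟩ := hp
      by_cases hin : (a, b, c) ∈ tri Γ'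
      · exact Finset.mem_union_left _ hin
      · apply Finset.mem_union_right
        simp only [tri, mem_filter, mem_univ, true_and, hΓ'] at hin
        simp only [mem_union, mem_image, Prod.mk.injEq]
        have key : (a = x ∧ b = y) ∨ (a = y ∧ b = x) ∨ (a = x ∧ c = y) ∨ (a = y ∧ c = x) ∨
            (b = x ∧ c = y) ∨ (b = y ∧ c = x) := by
          by_contra hcon
          apply hin
          push Not at hcon
          obtain ⟨c1, c2, c3, c4, c5, c6⟩ := hcon
          exact ⟨⟨hab, fun h => c1 h.1 h.2, fun h => c2 h.1 h.2⟩,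
            ⟨hac, fun h => c3 h.1 h.2, fun h => c4 h.1 h.2⟩,
            ⟨hbc, fun h => c5 h.1 h.2, fun h => c6 h.1 h.2⟩⟩
        rcases key with ⟨rfl, rfl⟩ | ⟨rfl, rfl⟩ | ⟨rfl, rfl⟩ | ⟨rfl, rfl⟩ | ⟨rfl, rfl⟩ | ⟨rfl, rfl⟩
        · exact .inl (.inl (.inl (.inl (.inl ⟨c, hmem c hac hbc, rfl, rfl, rfl⟩))))
        · exact .inl (.inl (.inl (.inl (.inr ⟨c, hmem c hbc hac, rfl, rfl, rfl⟩))))
        · exact .inl (.inl (.inl (.inr ⟨b, hmem b hab hbc.symm, rfl, rfl, rfl⟩)))
        · exact .inl (.inl (.inr ⟨b, hmem b hbc.symm hab, rfl, rfl, rfl⟩))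
        · exact .inl (.inr ⟨a, hmem a hab.symm hac.symm, rfl, rfl, rfl⟩)
        · exact .inr ⟨a, hmem a hac.symm hab.symm, rfl, rfl, rfl⟩
    refine (Finset.card_le_card h1).trans ((Finset.card_union_le _ _).trans ?_)
    refine Nat.add_le_add_left ?_ _
    have hi : ∀ g : X → X × X × X, (C.image g).card ≤ n := fun g => Finset.card_image_le.trans hc
    have e1 := Finset.card_union_le (C.image (fun z => (x, y, z)) ∪ C.image (fun z => (y, x, z)) ∪
        C.image (fun z => (x, z, y)) ∪ C.image (fun z => (y, z, x)) ∪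
        C.image (fun z => (z, x, y))) (C.image (fun z => (z, y, x)))
    have e2 := Finset.card_union_le (C.image (fun z => (x, y, z)) ∪ C.image (fun z => (y, x, z)) ∪
        C.image (fun z => (x, z, y)) ∪ C.image (fun z => (y, z, x))) (C.image (fun z => (z, x, y)))
    have e3 := Finset.card_union_le (C.image (fun z => (x, y, z)) ∪ C.image (fun z => (y, x, z)) ∪
        C.image (fun z => (x, z, y))) (C.image (fun z => (y, z, x)))
    have e4 := Finset.card_union_le (C.image (fun z => (x, y, z)) ∪ C.image (fun z => (y, x, z)))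
        (C.image (fun z => (x, z, y)))
    have e5 := Finset.card_union_le (C.image (fun z => (x, y, z))) (C.image (fun z => (y, x, z)))
    have i1 := hi (fun z => (x, y, z))
    have i2 := hi (fun z => (y, x, z))
    have i3 := hi (fun z => (x, z, y))
    have i4 := hi (fun z => (y, z, x))
    have i5 := hi (fun z => (z, x, y))
    have i6 := hi (fun z => (z, y, x))
    omega

/-- Peeling: outside the core there are few triangles. -/
theorem peel (s : ℕ) (Γ : SimpleGraph X) (k : ℕ) : ∀ Γ' : SimpleGraph X, core s Γ ≤ Γ' → Γ' ≤ Γ →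
    (prs Γ').card ≤ k →
    (tri Γ').card + 3 * s * (prs (core s Γ)).card ≤
      (tri (core s Γ)).card + 3 * s * (prs Γ').card := by
  induction k with
  | zero =>
    intro Γ' h1 h2 h3
    have h4 : Γ' = core s Γ := by
      refine le_antisymm ?_ h1
      intro x y hxy
      exfalso
      have : (x, y) ∈ prs Γ' := by simp [prs, hxy]
      have := Finset.card_pos.2 ⟨_, this⟩
      omega
    rw [h4]
  | succ k ih =>
    intro Γ' h1 h2 h3
    by_cases hr : Rich s Γ'
    · have h4 : Γ' = core s Γ := le_antisymm (le_core h2 hr) h1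
      rw [h4]
    · unfold Rich at hr
      push Not at hr
      obtain ⟨x, y, hxy, hc⟩ := hr
      have hnc : ¬ (core s Γ).Adj x y := by
        intro h
        have := core_rich s Γ x y h
        have := card_le_card (cn_mono h1 x y)
        omega
      obtain ⟨Γ'', g1, g2, g3, g4⟩ := del_edge Γ' s hxy hc.le
      have g5 : core s Γ ≤ Γ'' := by
        intro a b hab
        refine g2 a b (h1 hab) ?_ ?_
        · rintro ⟨rfl, rfl⟩
          exact hnc hab
        · rintro ⟨rfl, rfl⟩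
          exact hnc hab.symm
      have g6 := ih Γ'' g5 (g1.trans h2) (by omega)
      have g7 : 3 * s * ((prs Γ'').card + 2) ≤ 3 * s * (prs Γ').card := Nat.mul_le_mul_left _ g3
      have g8 : 3 * s * ((prs Γ'').card + 2) = 3 * s * (prs Γ'').card + 6 * s := by ring
      omega

/-- The neighbours of `u` outside the core. -/
noncomputable def n1 (s : ℕ) (Γ : SimpleGraph X) (u : X) : Finset X :=
  univ.filter (fun w => Γ.Adj u w ∧ ¬ (core s Γ).Adj u w)

/-- The neighbours of `u` in the core. -/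
noncomputable def n2 (s : ℕ) (Γ : SimpleGraph X) (u : X) : Finset X :=
  univ.filter (fun w => (core s Γ).Adj u w)

theorem mem_n1 {s : ℕ} {Γ : SimpleGraph X} {u w : X} :
    w ∈ n1 s Γ u ↔ Γ.Adj u w ∧ ¬ (core s Γ).Adj u w := by
  simp [n1]

theorem mem_n2 {s : ℕ} {Γ : SimpleGraph X} {u w : X} :
    w ∈ n2 s Γ u ↔ (core s Γ).Adj u w := by
  simp [n2]

theorem sum_n1 (s : ℕ) (Γ : SimpleGraph X) :
    ∑ u, (n1 s Γ u).card + (prs (core s Γ)).card = (prs Γ).card := by
  have h1 : ∑ u, (n1 s Γ u).card = (prs Γ \ prs (core s Γ)).card := by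
    rw [← Finset.card_sigma]
    refine Finset.card_bij (fun p _ => (p.1, p.2)) ?_ ?_ ?_
    · rintro ⟨u, w⟩ hp
      simp only [n1, mem_sigma, mem_filter, mem_univ, true_and] at hp
      simp only [prs, mem_sdiff, mem_filter, mem_univ, true_and]
      exact hp
    · rintro ⟨u, w⟩ _ ⟨u', w'⟩ _ h
      simp only [Prod.mk.injEq] at h
      obtain ⟨rfl, rfl⟩ := h
      rfl
    · rintro ⟨u, w⟩ hp
      simp only [prs, mem_sdiff, mem_filter, mem_univ, true_and] at hp
      exact ⟨⟨u, w⟩, by simp only [n1, mem_sigma, mem_filter, mem_univ, true_and]; exact hp, rfl⟩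
  have h2 : prs (core s Γ) ⊆ prs Γ := by
    intro p hp
    simp only [prs, mem_filter, mem_univ, true_and] at hp ⊢
    exact core_le s Γ hp
  rw [h1]
  exact Finset.card_sdiff_add_card_eq_card h2

theorem sum_tri1 (s : ℕ) (Γ : SimpleGraph X) :
    ∑ u, ∑ w ∈ n1 s Γ u, ((n1 s Γ u).filter (fun z => Γ.Adj w z)).card + (tri (core s Γ)).card ≤
      (tri Γ).card := by
  have h1 : ∑ u, ∑ w ∈ n1 s Γ u, ((n1 s Γ u).filter (fun z => Γ.Adj w z)).card ≤
      (tri Γ \ tri (core s Γ)).card := by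
    have h0 : ∑ u, ∑ w ∈ n1 s Γ u, ((n1 s Γ u).filter (fun z => Γ.Adj w z)).card =
        ((univ : Finset X).sigma (fun u => (n1 s Γ u).sigma
          (fun w => (n1 s Γ u).filter (fun z => Γ.Adj w z)))).card := by
      rw [Finset.card_sigma]
      refine Finset.sum_congr rfl fun u _ => ?_
      rw [Finset.card_sigma]
    rw [h0]
    refine Finset.card_le_card_of_injOn (fun p => (p.1, p.2.1, p.2.2)) ?_ ?_
    · rintro ⟨u, w, z⟩ hp
      simp only [n1, coe_sigma, Set.mem_sigma_iff, mem_coe, mem_filter, mem_univ, true_and] at hp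
      simp only [tri, coe_sdiff, Set.mem_sdiff, mem_coe, mem_filter, mem_univ, true_and]
      tauto
    · rintro ⟨u, w, z⟩ _ ⟨u', w', z'⟩ _ h
      simp only [Prod.mk.injEq] at h
      obtain ⟨rfl, rfl, rfl⟩ := h
      rfl
  have h2 : tri (core s Γ) ⊆ tri Γ := by
    intro p hp
    simp only [tri, mem_filter, mem_univ, true_and] at hp ⊢
    exact ⟨core_le s Γ hp.1, core_le s Γ hp.2.1, core_le s Γ hp.2.2⟩
  have h3 := Finset.card_sdiff_add_card_eq_card h2
  omega

theorem sum_tri1_le (s : ℕ) (Γ : SimpleGraph X) :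
    ∑ u, ∑ w ∈ n1 s Γ u, ((n1 s Γ u).filter (fun z => Γ.Adj w z)).card ≤
      3 * s * ∑ u, (n1 s Γ u).card := by
  have h1 := peel s Γ _ Γ (core_le s Γ) le_rfl le_rfl
  have h2 := sum_tri1 s Γ
  have h3 := sum_n1 s Γ
  rw [← h3, Nat.mul_add] at h1
  omega

/-- Cauchy-Schwarz in the form `(∑ d)² ≤ |S| ∑ d²`. -/
theorem sq_sum_le {ι : Type} (S : Finset ι) (d : ι → ℝ) :
    (∑ u ∈ S, d u) ^ 2 ≤ S.card * ∑ u ∈ S, d u ^ 2 := sq_sum_le_card_mul_sum_sq

/-- The second moment of the degrees outside the core. -/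
theorem sum_sq_n1 (s : ℕ) (Γ : SimpleGraph X) (S : Finset X) (i : ℕ)
    (hi : ∀ I ⊆ S, (∀ a ∈ I, ∀ b ∈ I, ¬ Γ.Adj a b) → I.card < i) :
    ∑ u ∈ S, ((n1 s (restr Γ S) u).card : ℝ) ^ 2 ≤ ((3 * s + 1 : ℝ) * i) ^ 2 * S.card := by
  set d : X → ℝ := fun u => ((n1 s (restr Γ S) u).card : ℝ) with hd
  have hsub : ∀ u, n1 s (restr Γ S) u ⊆ S := by
    intro u w hw
    exact (mem_n1.1 hw).1.2.2
  have hout : ∀ u, u ∉ S → n1 s (restr Γ S) u = ∅ := by
    intro u hu
    apply Finset.eq_empty_of_forall_notMem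
    intro w hw
    exact hu (mem_n1.1 hw).1.2.1
  set Q : ℝ := ∑ u ∈ S, d u ^ 2 with hQ
  set P : ℝ := ∑ u ∈ S, d u with hP
  have hd0 : ∀ u, 0 ≤ d u := fun u => Nat.cast_nonneg _
  have hP0 : 0 ≤ P := Finset.sum_nonneg fun u _ => hd0 u
  have hPu : ∑ u, d u = P := by
    rw [hP]
    symm
    apply Finset.sum_subset (Finset.subset_univ _)
    intro u _ hu
    simp only [hd]
    rw [hout u hu]
    simp
  have h1 : Q ≤ i * ((3 * s + 1) * P) := by
    have h2 : Q ≤ ∑ u, (i : ℝ) * ((∑ w ∈ n1 s (restr Γ S) u,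
        (((n1 s (restr Γ S) u).filter (fun z => (restr Γ S).Adj w z)).card : ℝ)) + d u) := by
      have h3 : Q ≤ ∑ u, d u ^ 2 :=
        Finset.sum_le_sum_of_subset_of_nonneg (Finset.subset_univ _) fun u _ _ => sq_nonneg _
      refine h3.trans (Finset.sum_le_sum fun u _ => ?_)
      refine turan_bound (restr Γ S) (n1 s (restr Γ S) u) i fun I hI hI' =>
        hi I (hI.trans (hsub u)) fun a ha b hb hab => hI' a ha b hb ⟨hab, ?_, ?_⟩
      · exact hsub u (hI ha)
      · exact hsub u (hI hb)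
    refine h2.trans ?_
    rw [← Finset.mul_sum, Finset.sum_add_distrib, hPu]
    apply mul_le_mul_of_nonneg_left _ (by positivity)
    have h5 : (∑ u, ∑ w ∈ n1 s (restr Γ S) u,
        (((n1 s (restr Γ S) u).filter (fun z => (restr Γ S).Adj w z)).card : ℝ)) ≤
        3 * s * ∑ u, d u := by
      have h4 := (Nat.cast_le (α := ℝ)).2 (sum_tri1_le s (restr Γ S))
      push_cast at h4
      exact h4
    rw [hPu] at h5
    linarith
  have h6 : P ^ 2 ≤ S.card * Q := sq_sum_le S d
  have hQ0 : 0 ≤ Q := Finset.sum_nonneg fun _ _ => sq_nonneg _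
  rcases hQ0.eq_or_lt with h0 | h0
  · rw [← h0]; positivity
  · have h7 : Q ^ 2 ≤ (((3 * s + 1 : ℝ) * i) ^ 2 * S.card) * Q := by
      calc Q ^ 2 ≤ (i * ((3 * s + 1) * P)) ^ 2 := by
            apply pow_le_pow_left₀ hQ0 h1
        _ = ((3 * s + 1 : ℝ) * i) ^ 2 * P ^ 2 := by ring
        _ ≤ ((3 * s + 1 : ℝ) * i) ^ 2 * (S.card * Q) := by
            apply mul_le_mul_of_nonneg_left h6 (by positivity)
        _ = _ := by ring
    rw [sq] at h7
    exact le_of_mul_le_mul_right h7 h0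

end Pool.Agent.Helper14.Rsl
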