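import Pool.Agent.Helper30.TwoTree.Main

/-! # A first moment criterion

If every set `S` of vertices of `Γ` without an independent set of size `i` satisfies
`∑ deg_S(u) ≤ K i |S|`, then every `H` with `m` edges and no isolated vertex embeds in the complement
of `Γ` as soon as `Γ` has `96 K m` vertices (helper30's dyadic embedding, with Markov's inequality,
helper6). -/

set_option autoImplicit false
open Classical Finset

namespace Pool.Agent.Helper14.Rsl

open Pool.Agent.Helper30.TwoTree

set_option linter.unusedSectionVars false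

variable {X : Type} [Fintype X]

/-- The first moment criterion. -/
def FM (K : ℝ) (Γ : SimpleGraph X) : Prop :=
  ∀ (S : Finset X) (i : ℕ), (∀ I ⊆ S, (∀ a ∈ I, ∀ b ∈ I, ¬ Γ.Adj a b) → I.card < i) →
    ∑ u ∈ S, ((nb Γ S u).card : ℝ) ≤ K * i * S.card

theorem FM.mono {K K' : ℝ} {Γ : SimpleGraph X} (h : FM K Γ) (hK : K ≤ K') : FM K' Γ := by
  intro S i hi
  refine (h S i hi).trans ?_
  have h1 : (0 : ℝ) ≤ i * S.card := by positivity
  nlinarith

theorem main_induction' {W : Type} [Fintype W] (H : SimpleGraph W) (r : W → ℕ)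
    (hr : Function.Injective r) (d : ℕ → ℕ) (hd : Antitone d)
    (hdr : ∀ w, (univ.filter (fun a => H.Adj w a)).card = d (r w))
    (m : ℕ) (hm0 : 0 < m) (hm : ∀ n, ∑ t ∈ range n, d t ≤ 2 * m)
    (hW : Fintype.card W ≤ 2 * m) (hiso : ∀ w : W, ∃ w', H.Adj w w')
    (K : ℝ) (hK : 1 ≤ K) (Γ : SimpleGraph X) (hΓ : FM K Γ) (j : ℕ) :
    ∀ S : Finset X, 64 * K * m + 4 * K * (wt d j : ℝ) ≤ S.card →
      ∃ g, Good H r Γ S (2 ^ j) g := by
  have hm0' : (0 : ℝ) < m := by exact_mod_cast hm0
  have hm1' : (1 : ℝ) ≤ m := by exact_mod_cast hm0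
  have hK0 : 0 < K := by linarith
  induction j with
  | zero =>
    intro S hS
    have hSpos : (0 : ℝ) < S.card := by
      refine lt_of_lt_of_le ?_ hS
      positivity
    have hSpos' : 0 < S.card := by exact_mod_cast hSpos
    obtain ⟨x, hx⟩ := Finset.card_pos.1 hSpos'
    refine ⟨fun _ => x, fun _ _ => hx, ?_, ?_⟩
    · intro a b ha hb _
      rw [pow_zero] at ha hb
      exact hr (by omega)
    · intro a b ha hb hab
      rw [pow_zero] at ha hb
      have : a = b := hr (by omega)
      rw [this] at hab
      exact absurd hab (H.loopless.irrefl _)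
  | succ j ih =>
    intro S hS
    have hwt : wt d (j + 1) = wt d j + 2 ^ (j + 1) * d (2 ^ j) := by
      simp only [wt]; rw [Finset.sum_range_succ]
    by_cases hind : ∃ I ⊆ S, (∀ a ∈ I, ∀ b ∈ I, ¬ Γ.Adj a b) ∧ 2 ^ (j + 1) ≤ I.card
    · obtain ⟨I, hIS, hI, hc⟩ := hind
      exact good_of_indep H r hr Γ S I hIS hI _ hc (by positivity)
    · push Not at hind
      have hwr : (wt d (j + 1) : ℝ) = wt d j + 2 ^ (j + 1) * (d (2 ^ j) : ℝ) := by
        rw [hwt]; push_cast; rfl
      by_cases hD0 : d (2 ^ j) = 0
      · -- no vertex has rank at least `2^j`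
        have hno : ∀ w, r w < 2 ^ j := by
          intro w
          by_contra hcon
          push Not at hcon
          have h1 := hd hcon
          rw [hD0, ← hdr w] at h1
          obtain ⟨w', hw'⟩ := hiso w
          have h2 : 0 < (univ.filter (fun a => H.Adj w a)).card :=
            Finset.card_pos.2 ⟨w', by simp [hw']⟩
          omega
        obtain ⟨g, g1, g2, g3⟩ := ih S (by
          refine le_trans ?_ hS
          rw [hwr, hD0]
          simp)
        exact ⟨g, fun a _ => g1 a (hno a), fun a b _ _ => g2 a b (hno a) (hno b),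
          fun a b _ _ => g3 a b (hno a) (hno b)⟩
      · have hDpos : (1 : ℝ) ≤ d (2 ^ j) := by exact_mod_cast Nat.one_le_iff_ne_zero.2 hD0
        set D : ℕ := d (2 ^ j) with hDdef
        set x : ℝ := 2 ^ (j + 1) * (D : ℝ) with hx
        set s : ℝ := ((S.card : ℕ) : ℝ) with hs
        set T : ℝ := s / (4 * D) with hT
        have hx0 : 0 ≤ x := by positivity
        have hw0 : (0 : ℝ) ≤ wt d j := Nat.cast_nonneg _
        have hspos : 64 * K * m ≤ s := by
          refine le_trans ?_ hS
          have : (0 : ℝ) ≤ 4 * K * (wt d (j + 1) : ℝ) := by positivity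
          linarith
        have hs0 : 0 < s := lt_of_lt_of_le (by positivity) hspos
        have hT0 : 0 < T := by positivity
        have hx8 : x ≤ 8 * m := by
          have h1 := wt_bound d hd m hm (j + 1)
          have h2 : (wt d (j + 1) : ℝ) ≤ 8 * m := by exact_mod_cast h1
          rw [hwr] at h2
          linarith
        -- remove the vertices of large degree
        set B : Finset X := S.filter (fun u => T < (nb Γ S u).card) with hB
        have hBc : (B.card : ℝ) * T ≤ K * (2 ^ (j + 1) : ℕ) * s := by
          refine le_trans ?_ (hΓ S (2 ^ (j + 1)) hind)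
          calc (B.card : ℝ) * T = ∑ u ∈ B, T := by rw [Finset.sum_const, nsmul_eq_mul]
            _ ≤ ∑ u ∈ B, ((nb Γ S u).card : ℝ) :=
                Finset.sum_le_sum fun u hu => (Finset.mem_filter.1 hu).2.le
            _ ≤ ∑ u ∈ S, ((nb Γ S u).card : ℝ) :=
                Finset.sum_le_sum_of_subset_of_nonneg (Finset.filter_subset _ _)
                  fun _ _ _ => by positivity
        have hBle : (B.card : ℝ) ≤ 4 * K * x := by
          have h1 : (4 * K * x) * T = K * (2 ^ (j + 1) : ℕ) * s := by
            rw [hT, hx]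
            push_cast
            field_simp
          rw [← h1] at hBc
          exact le_of_mul_le_mul_right hBc hT0
        have hSB : ((S \ B).card : ℝ) = s - B.card := by
          rw [Finset.card_sdiff_of_subset (Finset.filter_subset _ _), Nat.cast_sub
            (Finset.card_le_card (Finset.filter_subset _ _))]
        obtain ⟨g, hg⟩ := ih (S \ B) (by
          rw [hSB]
          have h1 : 4 * K * (wt d (j + 1) : ℝ) = 4 * K * (wt d j : ℝ) + 4 * K * x := by
            rw [hwr]; ring
          linarith)
        obtain ⟨g', g1, g2, g3⟩ := extend H r hr Γ (S \ B) D T hT0.le (by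
            intro u hu
            rw [Finset.mem_sdiff, hB, Finset.mem_filter, not_and, not_lt] at hu
            refine le_trans ?_ (hu.2 hu.1)
            exact_mod_cast Finset.card_le_card (Finset.filter_subset_filter _ Finset.sdiff_subset))
          (by
            rw [hSB]
            have h1 : (D : ℝ) * T = s / 4 := by
              rw [hT]; field_simp
            rw [h1]
            have h2 : (Fintype.card W : ℝ) ≤ 2 * m := by exact_mod_cast hW
            have h3 : 4 * K * x ≤ 32 * (K * m) := by
              have := mul_le_mul_of_nonneg_left hx8 hK0.le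
              linarith
            have h4 : (m : ℝ) ≤ K * m := le_mul_of_one_le_left hm0'.le hK
            nlinarith) (2 ^ j)
          (by
            intro w hw
            rw [hdr w]
            exact hd hw) (2 ^ j) g hg
        have h2j : 2 ^ (j + 1) = 2 ^ j + 2 ^ j := by rw [pow_succ]; ring
        rw [h2j]
        exact ⟨g', fun a ha => Finset.sdiff_subset (g1 a ha), g2, g3⟩

/-- The criterion. -/
theorem crit {W : Type} [Fintype W] (H : SimpleGraph W) (hiso : ∀ w : W, ∃ w', H.Adj w w')
    (K : ℝ) (hK : 1 ≤ K) (Γ : SimpleGraph X) (hΓ : FM K Γ)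
    (hN : 96 * K * H.edgeSet.ncard ≤ Fintype.card X) :
    ∃ g : W → X, Function.Injective g ∧ ∀ a b, H.Adj a b → ¬ Γ.Adj (g a) (g b) := by
  rcases isEmpty_or_nonempty W with hWe | hWne
  · exact ⟨fun a => hWe.elim a, fun a => hWe.elim a, fun a => hWe.elim a⟩
  set m := H.edgeSet.ncard with hm
  set δ : W → ℕ := fun w => (univ.filter (fun a => H.Adj w a)).card with hδ
  have hsum : ∑ w, δ w = 2 * m := by
    have h1 := H.sum_degrees_eq_twice_card_edges
    have h2 : ∀ w, H.degree w = δ w := by
      intro w
      rw [← SimpleGraph.card_neighborFinset_eq_degree, hδ]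
      congr 1
      ext a
      simp
    rw [Finset.sum_congr rfl fun w _ => h2 w] at h1
    rw [h1, hm, ← SimpleGraph.coe_edgeFinset, Set.ncard_coe_finset]
  have hδ1 : ∀ w, 1 ≤ δ w := by
    intro w
    obtain ⟨w', hw'⟩ := hiso w
    exact Finset.card_pos.2 ⟨w', by simp [hw']⟩
  have hWm : Fintype.card W ≤ 2 * m := by
    rw [← hsum, ← Finset.card_univ, Finset.card_eq_sum_ones]
    exact Finset.sum_le_sum fun w _ => hδ1 w
  have hm0 : 0 < m := by
    have : 0 < Fintype.card W := Fintype.card_pos
    omega
  obtain ⟨ρ, d, hρ, hρM, hd, hdr, hdsum⟩ := exists_rank δ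
  rw [hsum] at hdsum
  obtain ⟨g, g1, g2, g3⟩ := main_induction' H ρ hρ d hd hdr m hm0 hdsum hWm hiso
    K hK Γ hΓ (Fintype.card W) (univ : Finset X) (by
      rw [Finset.card_univ]
      have hw : (wt d (Fintype.card W) : ℝ) ≤ 8 * m := by
        exact_mod_cast wt_bound d hd m hdsum (Fintype.card W)
      have h1 : 4 * K * (wt d (Fintype.card W) : ℝ) ≤ 4 * K * (8 * m) :=
        mul_le_mul_of_nonneg_left hw (by linarith)
      linarith)
  have hlt : ∀ w, ρ w < 2 ^ Fintype.card W := fun w => (hρM w).trans Nat.lt_two_pow_self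
  exact ⟨g, fun a b hab => g2 a b (hlt a) (hlt b) hab, fun a b hab => g3 a b (hlt a) (hlt b) hab⟩

end Pool.Agent.Helper14.Rsl
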