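import Mathlib

/-! # The class of graphs (MP_21639e_co, helper6 and helper14) -/

set_option autoImplicit false

namespace Pool.Agent.Helper14.Rsl

/-- The earlier neighbours of `v` for the order given by the rank function `r`. -/
def back {V : Type} (T : SimpleGraph V) (r : V → ℕ) (v : V) : Set V :=
  {w : V | T.Adj v w ∧ r w < r v}

/-- Tree edges: one of the two ends is a vertex outside the initial set `A` whose only earlier
neighbour is the other end. -/
def TreeEdge {V : Type} (T : SimpleGraph V) (r : V → ℕ) (A : Set V) (x y : V) : Prop :=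
  (x ∉ A ∧ back T r x = {y}) ∨ (y ∉ A ∧ back T r y = {x})

/-- `T` is built from its induced subgraph on `A` by adding vertices one by one, in the order of
the ranks. Every new vertex has at most two earlier neighbours; if it has two earlier neighbours
`x` and `x'`, then `x` and `x'` are adjacent, or `x y` and `y x'` are tree edges for some `y`. -/
structure Build {V : Type} (T : SimpleGraph V) (r : V → ℕ) (A : Set V) : Prop where
  inj : Function.Injective r
  first : ∀ a ∈ A, ∀ v ∉ A, r a < r v
  two : ∀ v ∉ A, (back T r v).encard ≤ 2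
  rule : ∀ v ∉ A, ∀ x ∈ back T r v, ∀ x' ∈ back T r v, x ≠ x' →
    T.Adj x x' ∨ ∃ y, TreeEdge T r A x y ∧ TreeEdge T r A y x'

/-- Graphs on `n` vertices without a copy of `G₀` have `O(n^(3/2))` edges. -/
def ExThreeHalves {A : Type} (G₀ : SimpleGraph A) : Prop :=
  ∃ c : ℝ, ∀ (n : ℕ) (Γ : SimpleGraph (Fin n)),
    c * (n : ℝ) ^ 3 < ((Γ.edgeSet.ncard : ℕ) : ℝ) ^ 2 →
      ∃ f : A → Fin n, Function.Injective f ∧ ∀ a b : A, G₀.Adj a b → Γ.Adj (f a) (f b)

end Pool.Agent.Helper14.Rsl
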