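import Pool.Agent.Helper14.Rsl.Core

/-! # Pairs with many common neighbours

A graph whose degrees have a large second moment contains two vertices with `s` common neighbours
any two of which have at least `s` common neighbours. -/

set_option autoImplicit false
open Classical Finset

namespace Pool.Agent.Helper14.Rsl

open Pool.Agent.Helper30.TwoTree

set_option linter.unusedSectionVars false

variable {X : Type} [Fintype X]

/-- Pairs with fewer than `s` common neighbours. -/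
def light (s : ℕ) (Γ : SimpleGraph X) : SimpleGraph X where
  Adj x y := x ≠ y ∧ (cn Γ x y).card < s
  symm := ⟨fun x y h => ⟨h.1.symm, by rw [cn_comm]; exact h.2⟩⟩
  loopless := ⟨fun _ h => h.1 rfl⟩

theorem num_step {N s x : ℝ} (hs : 1 ≤ s)
    (h : x ^ 2 ≤ N ^ 2 * (s * (s ^ 2 * N ^ 2 + x))) : x ≤ 2 * s ^ 2 * N ^ 2 := by
  by_contra hc
  push Not at hc
  have hN : 0 ≤ N ^ 2 := sq_nonneg N
  have hx0 : 0 < x := lt_of_le_of_lt (by positivity) hc
  have h1 : N ^ 2 * (s * (s ^ 2 * N ^ 2 + x)) ≤ N ^ 2 * (s * (3 / 2 * x)) := by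
    apply mul_le_mul_of_nonneg_left _ hN
    apply mul_le_mul_of_nonneg_left _ (by linarith)
    linarith
  have h2 : N ^ 2 * (s * (3 / 2 * x)) ≤ 3 / 4 * x * x := by
    have h3 : s ≤ s ^ 2 := by nlinarith
    have h4 : N ^ 2 * s ≤ N ^ 2 * s ^ 2 := mul_le_mul_of_nonneg_left h3 hN
    have h5 : N ^ 2 * s ≤ x / 2 := by linarith
    calc N ^ 2 * (s * (3 / 2 * x)) = (N ^ 2 * s) * (3 / 2 * x) := by ring
      _ ≤ (x / 2) * (3 / 2 * x) := mul_le_mul_of_nonneg_right h5 (by positivity)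
      _ = 3 / 4 * x * x := by ring
  nlinarith

theorem heavy_or (s : ℕ) (hs : 0 < s) (Γ : SimpleGraph X) (S : Finset X)
    (hS : ∀ a b, Γ.Adj a b → a ∈ S)
    (hno : ∀ p q, p ≠ q → ∀ A ⊆ cn Γ p q, s ≤ A.card →
      ∃ a ∈ A, ∃ b ∈ A, a ≠ b ∧ (cn Γ a b).card < s) :
    ∑ u ∈ S, ((univ.filter (fun w => Γ.Adj u w)).card : ℝ) ^ 2 ≤
      3 * (s : ℝ) ^ 2 * (S.card : ℝ) ^ 2 := by
  have hs1 : (1 : ℝ) ≤ s := by exact_mod_cast hs
  have hcnS : ∀ p q, cn Γ p q ⊆ S := fun p q z hz => hS z p (mem_cn.1 hz).1.symm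
  set c : X × X → ℝ := fun pq => ((cn Γ pq.1 pq.2).card : ℝ) with hc
  have hc0 : ∀ pq, 0 ≤ c pq := fun _ => Nat.cast_nonneg _
  -- Turan inside the common neighbourhoods
  have h1 : ∀ pq ∈ S.offDiag, c pq ^ 2 ≤ s * ((∑ x ∈ cn Γ pq.1 pq.2,
      (((cn Γ pq.1 pq.2).filter (fun w => (light s Γ).Adj x w)).card : ℝ)) + c pq) := by
    intro pq hpq
    refine turan_bound (light s Γ) (cn Γ pq.1 pq.2) s fun I hI hI' => ?_
    by_contra hcon
    push Not at hcon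
    obtain ⟨a, ha, b, hb, hab, hlt⟩ := hno pq.1 pq.2 (mem_offDiag.1 hpq).2.2 I hI hcon
    exact hI' a ha b hb ⟨hab, hlt⟩
  -- double counting of the light pairs
  have h2 : ∑ pq ∈ S.offDiag, ∑ x ∈ cn Γ pq.1 pq.2,
      ((cn Γ pq.1 pq.2).filter (fun w => (light s Γ).Adj x w)).card ≤ S.card ^ 2 * s ^ 2 := by
    have g1 : ∑ pq ∈ S.offDiag, ∑ x ∈ cn Γ pq.1 pq.2,
        ((cn Γ pq.1 pq.2).filter (fun w => (light s Γ).Adj x w)).card =
        (S.offDiag.sigma (fun pq => (cn Γ pq.1 pq.2).sigma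
          (fun x => (cn Γ pq.1 pq.2).filter (fun w => (light s Γ).Adj x w)))).card := by
      rw [Finset.card_sigma]
      refine Finset.sum_congr rfl fun u _ => ?_
      rw [Finset.card_sigma]
    have g2 : (S.offDiag.sigma (fun pq => (cn Γ pq.1 pq.2).sigma
          (fun x => (cn Γ pq.1 pq.2).filter (fun w => (light s Γ).Adj x w)))).card ≤
        (((S ×ˢ S).filter (fun xy => (light s Γ).Adj xy.1 xy.2)).sigma
          (fun xy => cn Γ xy.1 xy.2 ×ˢ cn Γ xy.1 xy.2)).card := by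
      refine Finset.card_le_card_of_injOn (fun t => ⟨(t.2.1, t.2.2), t.1⟩) ?_ ?_
      · rintro ⟨⟨p, q⟩, x, y⟩ ht
        simp only [coe_sigma, Set.mem_sigma_iff, mem_coe, mem_filter, mem_offDiag] at ht
        obtain ⟨-, hx, hy, hxy⟩ := ht
        have hx' := mem_cn.1 hx
        have hy' := mem_cn.1 hy
        simp only [coe_sigma, Set.mem_sigma_iff, mem_coe, mem_filter, mem_product]
        exact ⟨⟨⟨hcnS _ _ hx, hcnS _ _ hy⟩, hxy⟩, mem_cn.2 ⟨hx'.1.symm, hy'.1.symm⟩,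
          mem_cn.2 ⟨hx'.2.symm, hy'.2.symm⟩⟩
      · rintro ⟨⟨p, q⟩, x, y⟩ _ ⟨⟨p', q'⟩, x', y'⟩ _ h
        simp only [Sigma.mk.injEq, Prod.mk.injEq, heq_eq_eq] at h
        obtain ⟨⟨rfl, rfl⟩, rfl, rfl⟩ := h
        rfl
    rw [g1]
    refine g2.trans ?_
    rw [Finset.card_sigma]
    calc ∑ xy ∈ (S ×ˢ S).filter (fun xy => (light s Γ).Adj xy.1 xy.2),
          (cn Γ xy.1 xy.2 ×ˢ cn Γ xy.1 xy.2).card
        ≤ ∑ xy ∈ (S ×ˢ S).filter (fun xy => (light s Γ).Adj xy.1 xy.2), s ^ 2 := by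
          refine Finset.sum_le_sum fun xy hxy => ?_
          rw [Finset.card_product, sq]
          have := (mem_filter.1 hxy).2.2.le
          exact Nat.mul_le_mul this this
      _ = ((S ×ˢ S).filter (fun xy => (light s Γ).Adj xy.1 xy.2)).card * s ^ 2 := by
          rw [Finset.sum_const, smul_eq_mul]
      _ ≤ S.card ^ 2 * s ^ 2 := by
          apply Nat.mul_le_mul_right
          refine (Finset.card_le_card (Finset.filter_subset _ _)).trans ?_
          rw [Finset.card_product, sq]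
  set P : ℝ := ∑ pq ∈ S.offDiag, c pq with hP
  set Q : ℝ := ∑ pq ∈ S.offDiag, c pq ^ 2 with hQ
  have hP0 : 0 ≤ P := Finset.sum_nonneg fun _ _ => hc0 _
  have hQ0 : 0 ≤ Q := Finset.sum_nonneg fun _ _ => sq_nonneg _
  have h3 : Q ≤ s * ((s : ℝ) ^ 2 * (S.card : ℝ) ^ 2 + P) := by
    refine (Finset.sum_le_sum h1).trans ?_
    rw [← Finset.mul_sum, Finset.sum_add_distrib, ← hP]
    apply mul_le_mul_of_nonneg_left _ (by positivity)
    have h4 := (Nat.cast_le (α := ℝ)).2 h2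
    push_cast at h4
    linarith
  have h4 : P ^ 2 ≤ (S.card : ℝ) ^ 2 * Q := by
    have g1 : P ^ 2 ≤ (S.offDiag.card : ℝ) * Q := sq_sum_le S.offDiag c
    have g2 : (S.offDiag.card : ℝ) ≤ (S.card : ℝ) ^ 2 := by
      have : S.offDiag.card ≤ S.card ^ 2 := by
        rw [Finset.offDiag_card, sq]
        exact Nat.sub_le _ _
      exact_mod_cast this
    exact g1.trans (mul_le_mul_of_nonneg_right g2 hQ0)
  have h5 : P ≤ 2 * (s : ℝ) ^ 2 * (S.card : ℝ) ^ 2 := by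
    apply num_step hs1
    exact h4.trans (mul_le_mul_of_nonneg_left h3 (sq_nonneg _))
  -- the second moment
  have h6 : ∑ u ∈ S, (univ.filter (fun w => Γ.Adj u w)).card ^ 2 ≤
      ∑ pq ∈ S ×ˢ S, (cn Γ pq.1 pq.2).card := by
    have g1 : ∑ u ∈ S, (univ.filter (fun w => Γ.Adj u w)).card ^ 2 =
        (S.sigma (fun u => univ.filter (fun w => Γ.Adj u w) ×ˢ
          univ.filter (fun w => Γ.Adj u w))).card := by
      rw [Finset.card_sigma]
      refine Finset.sum_congr rfl fun u _ => ?_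
      rw [Finset.card_product, sq]
    have g2 : ∑ pq ∈ S ×ˢ S, (cn Γ pq.1 pq.2).card =
        ((S ×ˢ S).sigma (fun pq => cn Γ pq.1 pq.2)).card := by
      rw [Finset.card_sigma]
    rw [g1, g2]
    refine Finset.card_le_card_of_injOn (fun t => ⟨(t.2.1, t.2.2), t.1⟩) ?_ ?_
    · rintro ⟨u, p, q⟩ ht
      simp only [coe_sigma, Set.mem_sigma_iff, mem_coe, mem_product, mem_filter, mem_univ,
        true_and] at ht
      simp only [coe_sigma, Set.mem_sigma_iff, mem_coe, mem_product]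
      exact ⟨⟨hS p u ht.2.1.symm, hS q u ht.2.2.symm⟩, mem_cn.2 ⟨ht.2.1.symm, ht.2.2.symm⟩⟩
    · rintro ⟨u, p, q⟩ _ ⟨u', p', q'⟩ _ h
      simp only [Sigma.mk.injEq, Prod.mk.injEq, heq_eq_eq] at h
      obtain ⟨⟨rfl, rfl⟩, rfl⟩ := h
      rfl
  have h7 : ∑ pq ∈ S ×ˢ S, c pq = ∑ pq ∈ S.diag, c pq + P := by
    rw [hP, ← Finset.sum_union (Finset.disjoint_diag_offDiag S), Finset.diag_union_offDiag]
  have h8 : ∑ pq ∈ S.diag, c pq ≤ (S.card : ℝ) ^ 2 := by
    calc ∑ pq ∈ S.diag, c pq ≤ ∑ pq ∈ S.diag, (S.card : ℝ) := by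
          refine Finset.sum_le_sum fun pq _ => ?_
          exact (Nat.cast_le (α := ℝ)).2 (Finset.card_le_card (hcnS pq.1 pq.2))
      _ = (S.card : ℝ) ^ 2 := by
          rw [Finset.sum_const, Finset.diag_card, nsmul_eq_mul, sq]
  have h9 := (Nat.cast_le (α := ℝ)).2 h6
  push_cast at h9
  have h10 : (S.card : ℝ) ^ 2 ≤ (s : ℝ) ^ 2 * (S.card : ℝ) ^ 2 := by
    have : (1 : ℝ) ≤ (s : ℝ) ^ 2 := by nlinarith
    nlinarith [sq_nonneg (S.card : ℝ)]
  have h11 : (∑ pq ∈ S ×ˢ S, ((cn Γ pq.1 pq.2).card : ℝ)) = ∑ pq ∈ S ×ˢ S, c pq := rfl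
  linarith

end Pool.Agent.Helper14.Rsl
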