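import Pool.Agent.Helper14.Rsl.Defs

/-! # Graphs with an independent set outside which all degrees are at most two

Every such graph is a subgraph of a graph built from the empty graph. The typical example is a graph
obtained from an arbitrary graph by subdividing every edge at least once. -/

set_option autoImplicit false
open Classical Finset

namespace Pool.Agent.Helper14.Rsl

set_option linter.unusedSectionVars false

theorem absurd_opt {V : Type} {P : Prop} {v : V} (h : (none : Option V) = some v ∨ some v = none) :
    P := by
  rcases h with h | h
  · exact absurd h.symm (Option.some_ne_none v)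
  · exact absurd h (Option.some_ne_none v)

/-- `x` and `y` are the same, adjacent, or joined by a path of two tree edges. -/
def Link {V : Type} (T : SimpleGraph V) (r : V → ℕ) (x y : V) : Prop :=
  x = y ∨ T.Adj x y ∨ ∃ c, TreeEdge T r ∅ x c ∧ TreeEdge T r ∅ c y

theorem TreeEdge.symm' {V : Type} {T : SimpleGraph V} {r : V → ℕ} {A : Set V} {x y : V}
    (h : TreeEdge T r A x y) : TreeEdge T r A y x := Or.symm h

theorem Link.symm {V : Type} {T : SimpleGraph V} {r : V → ℕ} {x y : V} (h : Link T r x y) :
    Link T r y x := by
  rcases h with h | h | ⟨c, h1, h2⟩
  · exact Or.inl h.symm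
  · exact Or.inr (Or.inl h.symm)
  · exact Or.inr (Or.inr ⟨c, h2.symm', h1.symm'⟩)

/-- One construction step. -/
theorem add_vertex {V : Type} [Fintype V] (T : SimpleGraph V) (r : V → ℕ) (hB : Build T r ∅)
    (v x y : V) (hvx : v ≠ x) (hvy : v ≠ y) (hiso : ∀ w, ¬ T.Adj v w) (hxy : Link T r x y) :
    ∃ (T' : SimpleGraph V) (r' : V → ℕ), Build T' r' ∅ ∧ T ≤ T' ∧ T'.Adj v x ∧ T'.Adj v y ∧
      (∀ u, u ≠ v → back T' r' u = back T r u) ∧
      (∀ p q, T'.Adj p q → T.Adj p q ∨ (p = v ∧ (q = x ∨ q = y)) ∨ (q = v ∧ (p = x ∨ p = y))) := by
  set T' : SimpleGraph V := SimpleGraph.mk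
    (fun p q => T.Adj p q ∨ (p = v ∧ (q = x ∨ q = y)) ∨ (q = v ∧ (p = x ∨ p = y)))
    (by
      constructor
      intro p q h
      rcases h with h | ⟨h1, h2⟩ | ⟨h1, h2⟩
      · exact Or.inl h.symm
      · exact Or.inr (Or.inr ⟨h1, h2⟩)
      · exact Or.inr (Or.inl ⟨h1, h2⟩))
    (by
      constructor
      intro p h
      rcases h with h | ⟨h1, h2⟩ | ⟨h1, h2⟩
      · exact T.loopless.irrefl _ h
      · rcases h2 with h2 | h2
        · exact hvx (h1.symm.trans h2)
        · exact hvy (h1.symm.trans h2)
      · rcases h2 with h2 | h2
        · exact hvx (h1.symm.trans h2)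
        · exact hvy (h1.symm.trans h2)) with hT'
  have hadj : ∀ p q, T'.Adj p q ↔
      (T.Adj p q ∨ (p = v ∧ (q = x ∨ q = y)) ∨ (q = v ∧ (p = x ∨ p = y))) := fun p q => Iff.rfl
  set M : ℕ := univ.sup r with hM
  have hle : ∀ u, r u ≤ M := fun u => Finset.le_sup (mem_univ u)
  set r' : V → ℕ := Function.update r v (M + 1) with hr'
  have hr'v : r' v = M + 1 := by rw [hr', Function.update_self]
  have hr'u : ∀ u, u ≠ v → r' u = r u := fun u hu => by rw [hr', Function.update_of_ne hu]
  have hbackv : back T' r' v = {x, y} := by
    ext w
    simp only [back, Set.mem_ofPred_eq, Set.mem_insert_iff, Set.mem_singleton_iff, hadj]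
    constructor
    · rintro ⟨h | ⟨_, h⟩ | ⟨h1, h2⟩, _⟩
      · exact absurd h (hiso w)
      · exact h
      · rcases h2 with h2 | h2
        · exact absurd h2 hvx
        · exact absurd h2 hvy
    · intro h
      have hwv : w ≠ v := by
        rcases h with h | h
        · rw [h]; exact hvx.symm
        · rw [h]; exact hvy.symm
      refine ⟨Or.inr (Or.inl ⟨trivial, h⟩), ?_⟩
      rw [hr'v, hr'u w hwv]
      have := hle w
      omega
  have hbacku : ∀ u, u ≠ v → back T' r' u = back T r u := by
    intro u hu
    ext w
    simp only [back, Set.mem_ofPred_eq, hadj]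
    rw [hr'u u hu]
    constructor
    · rintro ⟨h | ⟨h, _⟩ | ⟨h1, _⟩, h3⟩
      · have hwv : w ≠ v := by
          rintro rfl
          exact hiso u h.symm
        rw [hr'u w hwv] at h3
        exact ⟨h, h3⟩
      · exact absurd h hu
      · exfalso
        rw [h1, hr'v] at h3
        have := hle u
        omega
    · rintro ⟨h, h3⟩
      have hwv : w ≠ v := by
        rintro rfl
        exact hiso u h.symm
      rw [hr'u w hwv]
      exact ⟨Or.inl h, h3⟩
  have hbv : back T r v = ∅ := by
    ext w
    simp only [back, Set.mem_ofPred_eq, Set.mem_empty_iff_false, iff_false, not_and]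
    intro h
    exact absurd h (hiso w)
  have htree0 : ∀ a b, back T r a = {b} → back T' r' a = {b} := by
    intro a b h
    have hav : a ≠ v := by
      rintro rfl
      rw [hbv] at h
      exact absurd h.symm (Set.singleton_ne_empty b)
    rw [hbacku a hav]
    exact h
  have htree : ∀ a b, TreeEdge T r ∅ a b → TreeEdge T' r' ∅ a b := by
    intro a b h
    rcases h with ⟨h1, h2⟩ | ⟨h1, h2⟩
    · exact Or.inl ⟨h1, htree0 a b h2⟩
    · exact Or.inr ⟨h1, htree0 b a h2⟩
  refine ⟨T', r', ?_, ?_, ?_, ?_, hbacku, fun p q h => (hadj p q).1 h⟩
  · refine ⟨?_, ?_, ?_, ?_⟩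
    · intro a b hab
      by_cases ha : a = v
      · by_cases hb : b = v
        · rw [ha, hb]
        · exfalso
          rw [ha, hr'v, hr'u b hb] at hab
          have := hle b
          omega
      · by_cases hb : b = v
        · exfalso
          rw [hb, hr'v, hr'u a ha] at hab
          have := hle a
          omega
        · rw [hr'u a ha, hr'u b hb] at hab
          exact hB.inj hab
    · intro a ha
      exact absurd ha (Set.notMem_empty a)
    · intro u hu
      by_cases huv : u = v
      · rw [huv, hbackv]
        refine (Set.encard_insert_le {y} x).trans ?_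
        rw [Set.encard_singleton]
        norm_num
      · rw [hbacku u huv]
        exact hB.two u hu
    · intro u hu a ha b hb hab
      by_cases huv : u = v
      · rw [huv, hbackv] at ha hb
        have key : Link T r a b := by
          rcases ha with rfl | ha
          · rcases hb with rfl | hb
            · exact Or.inl rfl
            · rw [Set.mem_singleton_iff] at hb
              rw [hb]
              exact hxy
          · rw [Set.mem_singleton_iff] at ha
            rcases hb with rfl | hb
            · rw [ha]
              exact hxy.symm
            · rw [Set.mem_singleton_iff] at hb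
              rw [ha, hb]
              exact Or.inl rfl
        rcases key with h | h | ⟨c, h1, h2⟩
        · exact absurd h hab
        · exact Or.inl (Or.inl h)
        · exact Or.inr ⟨c, htree _ _ h1, htree _ _ h2⟩
      · rw [hbacku u huv] at ha hb
        rcases hB.rule u hu a ha b hb hab with h | ⟨c, h1, h2⟩
        · exact Or.inl (Or.inl h)
        · exact Or.inr ⟨c, htree _ _ h1, htree _ _ h2⟩
  · intro a b hab
    exact Or.inl hab
  · exact Or.inr (Or.inl ⟨rfl, Or.inl rfl⟩)
  · exact Or.inr (Or.inl ⟨rfl, Or.inr rfl⟩)

/-- The induction. -/
theorem sub_ind {V : Type} [Fintype V] (B : Set V) (n : ℕ) :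
    ∀ (U : Finset V) (G : SimpleGraph V), U.card = n → (∀ u ∈ U, u ∉ B) →
      (∀ a ∈ B, ∀ b ∈ B, ¬ G.Adj a b) →
      (∀ u ∈ U, ∃ x y : V, ∀ w, G.Adj u w → w = x ∨ w = y) →
      (∀ a b, G.Adj a b → a ∈ B ∨ a ∈ U) →
      ∃ (T : SimpleGraph (Option V)) (r : Option V → ℕ), Build T r ∅ ∧
        (∀ a b, G.Adj a b → T.Adj (some a) (some b)) ∧
        (∀ b ∈ B, back T r (some b) = {none}) ∧
        (∀ v, v ∉ B → v ∉ U → ∀ w, ¬ T.Adj (some v) w) := by
  induction n with
  | zero =>
    intro U G hU _ hBind _ hsupp
    have hU0 : U = ∅ := Finset.card_eq_zero.1 hU
    set T : SimpleGraph (Option V) := SimpleGraph.mk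
      (fun p q => (p = none ∧ ∃ b ∈ B, q = some b) ∨ (q = none ∧ ∃ b ∈ B, p = some b))
      (by
        constructor
        intro p q h
        exact Or.symm h)
      (by
        constructor
        intro p h
        rcases h with ⟨h1, b, _, h2⟩ | ⟨h1, b, _, h2⟩
        · rw [h1] at h2
          exact absurd_opt (Or.inl h2)
        · rw [h1] at h2
          exact absurd_opt (Or.inl h2)) with hT
    have hadj : ∀ p q, T.Adj p q ↔
      ((p = none ∧ ∃ b ∈ B, q = some b) ∨ (q = none ∧ ∃ b ∈ B, p = some b)) := fun p q => Iff.rfl
    set r : Option V → ℕ := fun o => match o with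
      | none => 0
      | some v => (Fintype.equivFin V v : ℕ) + 1 with hr
    have hr0 : r none = 0 := rfl
    have hrs : ∀ v, r (some v) = (Fintype.equivFin V v : ℕ) + 1 := fun v => rfl
    have hb0 : back T r none = ∅ := by
      ext w
      simp only [back, Set.mem_ofPred_eq, Set.mem_empty_iff_false, iff_false, not_and]
      intro _
      rw [hr0]
      omega
    have hbs : ∀ v w, w ∈ back T r (some v) → w = none := by
      intro v w hw
      rcases hw.1 with ⟨h, _⟩ | ⟨h, _⟩
      · exact absurd_opt (Or.inr h)
      · exact h
    have hbsub : ∀ v, back T r v ⊆ {none} := by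
      intro v w hw
      cases v with
      | none => rw [hb0] at hw; exact absurd hw (Set.notMem_empty w)
      | some v => exact hbs v w hw
    refine ⟨T, r, ⟨?_, ?_, ?_, ?_⟩, ?_, ?_, ?_⟩
    · intro a b hab
      cases a with
      | none =>
        cases b with
        | none => rfl
        | some b => rw [hr0, hrs] at hab; omega
      | some a =>
        cases b with
        | none => rw [hr0, hrs] at hab; omega
        | some b =>
          rw [hrs, hrs] at hab
          have h1 : Fintype.equivFin V a = Fintype.equivFin V b := Fin.ext (by omega)
          rw [(Fintype.equivFin V).injective h1]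
    · intro a ha
      exact absurd ha (Set.notMem_empty a)
    · intro v _
      refine (Set.encard_le_encard (hbsub v)).trans ?_
      rw [Set.encard_singleton]
      norm_num
    · intro v _ x hx x' hx' hne
      exact absurd ((hbsub v hx).trans (hbsub v hx').symm) hne
    · intro a b hab
      exfalso
      have ha : a ∈ B := by
        rcases hsupp a b hab with h | h
        · exact h
        · rw [hU0] at h
          exact absurd h (Finset.notMem_empty a)
      have hb : b ∈ B := by
        rcases hsupp b a hab.symm with h | h
        · exact h
        · rw [hU0] at h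
          exact absurd h (Finset.notMem_empty b)
      exact hBind a ha b hb hab
    · intro b hb
      refine Set.Subset.antisymm (hbsub _) ?_
      intro w hw
      rw [Set.mem_singleton_iff] at hw
      rw [hw]
      refine ⟨Or.inr ⟨rfl, b, hb, rfl⟩, ?_⟩
      rw [hr0, hrs]
      omega
    · intro v hv _ w hw
      rcases hw with ⟨h, _⟩ | ⟨_, b, hb, h⟩
      · exact absurd_opt (Or.inr h)
      · rw [Option.some.injEq] at h
        rw [h] at hv
        exact hv hb
  | succ n ih =>
    intro U G hU hUB hBind hdeg hsupp
    obtain ⟨v, hv⟩ : U.Nonempty := by
      rw [← Finset.card_pos]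
      omega
    have hvB := hUB v hv
    have hU' : (U.erase v).card = n := by
      rw [Finset.card_erase_of_mem hv, hU]
      omega
    -- the neighbours of `v`
    by_cases hcase : ∃ y ∈ U, G.Adj v y
    · obtain ⟨y, hyU, hvy⟩ := hcase
      have hyv : y ≠ v := hvy.ne.symm
      obtain ⟨x, hx, hxy⟩ : ∃ x, (x = v ∨ G.Adj v x) ∧ ∀ w, G.Adj v w → w = x ∨ w = y := by
        obtain ⟨s, t, hst⟩ := hdeg v hv
        rcases hst y hvy with h | h
        · by_cases ht : G.Adj v t
          · exact ⟨t, Or.inr ht, fun w hw => by
              rcases hst w hw with h1 | h1
              · exact Or.inr (h1.trans h.symm)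
              · exact Or.inl h1⟩
          · exact ⟨v, Or.inl rfl, fun w hw => by
              rcases hst w hw with h1 | h1
              · exact Or.inr (h1.trans h.symm)
              · rw [h1] at hw
                exact absurd hw ht⟩
        · by_cases hs : G.Adj v s
          · exact ⟨s, Or.inr hs, fun w hw => by
              rcases hst w hw with h1 | h1
              · exact Or.inl h1
              · exact Or.inr (h1.trans h.symm)⟩
          · exact ⟨v, Or.inl rfl, fun w hw => by
              rcases hst w hw with h1 | h1
              · rw [h1] at hw
                exact absurd hw hs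
              · exact Or.inr (h1.trans h.symm)⟩
      -- the reduced graph
      set G' : SimpleGraph V := SimpleGraph.mk
        (fun p q => p ≠ q ∧ p ≠ v ∧ q ≠ v ∧ (G.Adj p q ∨ (p = x ∧ q = y) ∨ (p = y ∧ q = x)))
        (by
          constructor
          rintro p q ⟨h1, h2, h3, h4⟩
          refine ⟨h1.symm, h3, h2, ?_⟩
          rcases h4 with h4 | ⟨h4, h5⟩ | ⟨h4, h5⟩
          · exact Or.inl h4.symm
          · exact Or.inr (Or.inr ⟨h5, h4⟩)
          · exact Or.inr (Or.inl ⟨h5, h4⟩))
        (by
          constructor
          intro p h
          exact h.1 rfl) with hG'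
      have hadj' : ∀ p q, G'.Adj p q ↔
        (p ≠ q ∧ p ≠ v ∧ q ≠ v ∧ (G.Adj p q ∨ (p = x ∧ q = y) ∨ (p = y ∧ q = x))) :=
        fun p q => Iff.rfl
      have hyB : y ∉ B := hUB y hyU
      have hxmem : x ≠ v → x ∈ B ∨ x ∈ U := by
        intro hxv
        rcases hx with h | h
        · exact absurd h hxv
        · exact hsupp x v h.symm
      obtain ⟨T, r, hT, hTG, hTB, hTiso⟩ := ih (U.erase v) G' hU'
        (fun u hu => hUB u (Finset.mem_of_mem_erase hu))
        (by
          rintro a ha b hb ⟨_, _, _, h⟩
          rcases h with h | ⟨_, h⟩ | ⟨h, _⟩
          · exact hBind a ha b hb h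
          · rw [h] at hb
            exact hyB hb
          · rw [h] at ha
            exact hyB ha)
        (by
          intro u hu
          obtain ⟨s, t, hst⟩ := hdeg u (Finset.mem_of_mem_erase hu)
          have huv : u ≠ v := Finset.ne_of_mem_erase hu
          -- replace `v` by the new neighbour
          by_cases huy : u = y
          · have hvst := hst v (by rw [huy]; exact hvy.symm)
            rcases hvst with h | h
            · refine ⟨x, t, ?_⟩
              rintro w ⟨h1, h2, h3, h4⟩
              rcases h4 with h4 | ⟨h4, h5⟩ | ⟨h4, h5⟩
              · rcases hst w h4 with h6 | h6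
                · exact absurd (h6.trans h.symm) h3
                · exact Or.inr h6
              · exact absurd (huy.trans h5.symm) h1
              · exact Or.inl h5
            · refine ⟨x, s, ?_⟩
              rintro w ⟨h1, h2, h3, h4⟩
              rcases h4 with h4 | ⟨h4, h5⟩ | ⟨h4, h5⟩
              · rcases hst w h4 with h6 | h6
                · exact Or.inr h6
                · exact absurd (h6.trans h.symm) h3
              · exact absurd (huy.trans h5.symm) h1
              · exact Or.inl h5
          · by_cases hux : u = x
            · have hvx : G.Adj v x := by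
                rcases hx with h | h
                · exact absurd (hux.trans h) huv
                · exact h
              have hvst := hst v (by rw [hux]; exact hvx.symm)
              rcases hvst with h | h
              · refine ⟨y, t, ?_⟩
                rintro w ⟨h1, h2, h3, h4⟩
                rcases h4 with h4 | ⟨h4, h5⟩ | ⟨h4, h5⟩
                · rcases hst w h4 with h6 | h6
                  · exact absurd (h6.trans h.symm) h3
                  · exact Or.inr h6
                · exact Or.inl h5
                · exact absurd h4 huy
              · refine ⟨y, s, ?_⟩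
                rintro w ⟨h1, h2, h3, h4⟩
                rcases h4 with h4 | ⟨h4, h5⟩ | ⟨h4, h5⟩
                · rcases hst w h4 with h6 | h6
                  · exact Or.inr h6
                  · exact absurd (h6.trans h.symm) h3
                · exact Or.inl h5
                · exact absurd h4 huy
            · refine ⟨s, t, ?_⟩
              rintro w ⟨h1, h2, h3, h4⟩
              rcases h4 with h4 | ⟨h4, _⟩ | ⟨h4, _⟩
              · exact hst w h4
              · exact absurd h4 hux
              · exact absurd h4 huy)
        (by
          rintro a b ⟨h1, h2, h3, h4⟩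
          rcases h4 with h4 | ⟨h4, _⟩ | ⟨h4, _⟩
          · rcases hsupp a b h4 with h | h
            · exact Or.inl h
            · exact Or.inr (Finset.mem_erase.2 ⟨h2, h⟩)
          · rcases hxmem (by rw [← h4]; exact h2) with h | h
            · exact Or.inl (by rw [h4]; exact h)
            · exact Or.inr (Finset.mem_erase.2 ⟨h2, by rw [h4]; exact h⟩)
          · exact Or.inr (Finset.mem_erase.2 ⟨h2, by rw [h4]; exact hyU⟩))
      -- the second neighbour, or a copy of the first one
      set x' : V := if x = v then y else x with hx'
      have hx'v : x' ≠ v := by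
        rw [hx']
        split_ifs with h
        · exact hyv
        · exact h
      have hlink : Link T r (some x') (some y) := by
        by_cases hxy' : x' = y
        · exact Or.inl (by rw [hxy'])
        · refine Or.inr (Or.inl (hTG _ _ ?_))
          have hxv : x ≠ v := by
            intro h
            rw [hx', if_pos h] at hxy'
            exact hxy' rfl
          rw [hx', if_neg hxv] at hxy' ⊢
          exact ⟨hxy', hxv, hyv, Or.inr (Or.inl ⟨rfl, rfl⟩)⟩
      have hviso : ∀ w, ¬ T.Adj (some v) w :=
        hTiso v hvB (Finset.notMem_erase v U)
      obtain ⟨T', r', hT', hTT', hTx, hTy, hbk, hTinv⟩ := add_vertex T r hT (some v) (some x')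
        (some y) (by rw [Ne, Option.some.injEq]; exact hx'v.symm)
        (by rw [Ne, Option.some.injEq]; exact hyv.symm) hviso hlink
      refine ⟨T', r', hT', ?_, ?_, ?_⟩
      · intro a b hab
        by_cases ha : a = v
        · rw [ha] at hab ⊢
          rcases hxy b hab with h | h
          · rw [h]
            have hxv : x ≠ v := by
              rintro rfl
              rw [h] at hab
              exact absurd hab (G.loopless.irrefl _)
            rw [hx', if_neg hxv] at hTx
            exact hTx
          · rw [h]
            exact hTy
        · by_cases hb : b = v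
          · rw [hb] at hab ⊢
            rcases hxy a hab.symm with h | h
            · rw [h]
              have hxv : x ≠ v := by
                rintro rfl
                exact ha h
              rw [hx', if_neg hxv] at hTx
              exact hTx.symm
            · rw [h]
              exact hTy.symm
          · exact hTT' (hTG a b ⟨hab.ne, ha, hb, Or.inl hab⟩)
      · intro b hb
        rw [hbk (some b) (by
          rw [Ne, Option.some.injEq]
          rintro rfl
          exact hvB hb)]
        exact hTB b hb
      · intro u huB huU w hw
        have huv : u ≠ v := by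
          rintro rfl
          exact huU hv
        rcases hTinv _ _ hw with h | ⟨h, _⟩ | ⟨h, h2⟩
        · exact hTiso u huB (fun h' => huU (Finset.mem_of_mem_erase h')) w h
        · rw [Option.some.injEq] at h
          exact huv h
        · rw [Option.some.injEq, Option.some.injEq] at h2
          rcases h2 with h2 | h2
          · by_cases hxv : x = v
            · rw [hx', if_pos hxv] at h2
              rw [h2] at huU
              exact huU hyU
            · rw [hx', if_neg hxv] at h2
              rw [h2] at huB huU
              rcases hxmem hxv with h3 | h3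
              · exact huB h3
              · exact huU h3
          · rw [h2] at huU
            exact huU hyU
    · -- all neighbours of `v` are in `B`
      push Not at hcase
      have hnB : ∀ w, G.Adj v w → w ∈ B := by
        intro w hw
        rcases hsupp w v hw.symm with h | h
        · exact h
        · exact absurd hw (hcase w h)
      set G' : SimpleGraph V := SimpleGraph.mk
        (fun p q => p ≠ v ∧ q ≠ v ∧ G.Adj p q)
        (by
          constructor
          rintro p q ⟨h1, h2, h3⟩
          exact ⟨h2, h1, h3.symm⟩)
        (by
          constructor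
          intro p h
          exact G.loopless.irrefl _ h.2.2) with hG'
      obtain ⟨T, r, hT, hTG, hTB, hTiso⟩ := ih (U.erase v) G' hU'
        (fun u hu => hUB u (Finset.mem_of_mem_erase hu))
        (fun a ha b hb h => hBind a ha b hb h.2.2)
        (by
          intro u hu
          obtain ⟨s, t, hst⟩ := hdeg u (Finset.mem_of_mem_erase hu)
          exact ⟨s, t, fun w hw => hst w hw.2.2⟩)
        (by
          rintro a b ⟨h1, h2, h3⟩
          rcases hsupp a b h3 with h | h
          · exact Or.inl h
          · exact Or.inr (Finset.mem_erase.2 ⟨h1, h⟩))
      have hviso : ∀ w, ¬ T.Adj (some v) w :=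
        hTiso v hvB (Finset.notMem_erase v U)
      -- the two neighbours
      obtain ⟨x, y, hxv, hyv, hxB, hyB, hlink, hN⟩ : ∃ x y : Option V, x ≠ some v ∧ y ≠ some v ∧
          (x = none ∨ ∃ b ∈ B, x = some b) ∧ (y = none ∨ ∃ b ∈ B, y = some b) ∧
          Link T r x y ∧ ∀ w, G.Adj v w → some w = x ∨ some w = y := by
        obtain ⟨s, t, hst⟩ := hdeg v hv
        have htr : ∀ b ∈ B, TreeEdge T r ∅ (some b) none := fun b hb =>
          Or.inl ⟨Set.notMem_empty _, hTB b hb⟩
        have hnv : (none : Option V) ≠ some v := fun h => absurd_opt (Or.inl h)
        by_cases hs : G.Adj v s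
        · by_cases ht : G.Adj v t
          · refine ⟨some s, some t, ?_, ?_, Or.inr ⟨s, hnB s hs, rfl⟩, Or.inr ⟨t, hnB t ht, rfl⟩,
              Or.inr (Or.inr ⟨none, htr s (hnB s hs), (htr t (hnB t ht)).symm'⟩), ?_⟩
            · rw [Ne, Option.some.injEq]
              exact hs.ne.symm
            · rw [Ne, Option.some.injEq]
              exact ht.ne.symm
            · intro w hw
              rw [Option.some.injEq, Option.some.injEq]
              exact hst w hw
          · refine ⟨some s, some s, ?_, ?_, Or.inr ⟨s, hnB s hs, rfl⟩, Or.inr ⟨s, hnB s hs, rfl⟩,
              Or.inl rfl, ?_⟩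
            · rw [Ne, Option.some.injEq]
              exact hs.ne.symm
            · rw [Ne, Option.some.injEq]
              exact hs.ne.symm
            · intro w hw
              rw [Option.some.injEq]
              rcases hst w hw with h | h
              · exact Or.inl h
              · rw [h] at hw
                exact absurd hw ht
        · by_cases ht : G.Adj v t
          · refine ⟨some t, some t, ?_, ?_, Or.inr ⟨t, hnB t ht, rfl⟩, Or.inr ⟨t, hnB t ht, rfl⟩,
              Or.inl rfl, ?_⟩
            · rw [Ne, Option.some.injEq]
              exact ht.ne.symm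
            · rw [Ne, Option.some.injEq]
              exact ht.ne.symm
            · intro w hw
              rw [Option.some.injEq]
              rcases hst w hw with h | h
              · rw [h] at hw
                exact absurd hw hs
              · exact Or.inl h
          · refine ⟨none, none, hnv, hnv, Or.inl rfl, Or.inl rfl, Or.inl rfl, ?_⟩
            intro w hw
            exfalso
            rcases hst w hw with h | h
            · rw [h] at hw
              exact hs hw
            · rw [h] at hw
              exact ht hw
      obtain ⟨T', r', hT', hTT', hTx, hTy, hbk, hTinv⟩ := add_vertex T r hT (some v) x y hxv.symm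
        hyv.symm hviso hlink
      refine ⟨T', r', hT', ?_, ?_, ?_⟩
      · intro a b hab
        by_cases ha : a = v
        · rw [ha] at hab ⊢
          rcases hN b hab with h | h
          · rw [h]
            exact hTx
          · rw [h]
            exact hTy
        · by_cases hb : b = v
          · rw [hb] at hab ⊢
            rcases hN a hab.symm with h | h
            · rw [h]
              exact hTx.symm
            · rw [h]
              exact hTy.symm
          · exact hTT' (hTG a b ⟨ha, hb, hab⟩)
      · intro b hb
        rw [hbk (some b) (by
          rw [Ne, Option.some.injEq]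
          rintro rfl
          exact hvB hb)]
        exact hTB b hb
      · intro u huB huU w hw
        have huv : u ≠ v := by
          rintro rfl
          exact huU hv
        have hcl : ∀ z : Option V, (z = none ∨ ∃ b ∈ B, z = some b) → some u = z → False := by
          rintro z (h | ⟨b, hb, h⟩) h2
          · rw [h] at h2
            exact absurd_opt (Or.inr h2)
          · rw [h, Option.some.injEq] at h2
            rw [h2] at huB
            exact huB hb
        rcases hTinv _ _ hw with h | ⟨h, _⟩ | ⟨h, h2⟩
        · exact hTiso u huB (fun h' => huU (Finset.mem_of_mem_erase h')) w h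
        · rw [Option.some.injEq] at h
          exact huv h
        · rcases h2 with h2 | h2
          · exact hcl x hxB h2
          · exact hcl y hyB h2

/-- A graph with an independent set `B` such that all other vertices have degree at most two is a
subgraph of a graph built from the empty graph. -/
theorem exists_build {V : Type} [Fintype V] (G : SimpleGraph V) (B : Set V)
    (hB : ∀ a ∈ B, ∀ b ∈ B, ¬ G.Adj a b) (hd : ∀ v ∉ B, (G.neighborSet v).encard ≤ 2) :
    ∃ (T : SimpleGraph (Option V)) (r : Option V → ℕ), Build T r ∅ ∧
      ∀ a b, G.Adj a b → T.Adj (some a) (some b) := by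
  obtain ⟨T, r, h1, h2, _, _⟩ := sub_ind B _ (univ.filter (fun v => v ∉ B)) G rfl
    (fun u hu => (Finset.mem_filter.1 hu).2) hB
    (by
      intro u hu
      have hu' := (Finset.mem_filter.1 hu).2
      have h := hd u hu'
      rcases (G.neighborSet u).eq_empty_or_nonempty with h0 | ⟨x, hx⟩
      · refine ⟨u, u, fun w hw => ?_⟩
        have : w ∈ G.neighborSet u := hw
        rw [h0] at this
        exact absurd this (Set.notMem_empty w)
      · by_cases hex : ∃ y ∈ G.neighborSet u, y ≠ x
        · obtain ⟨y, hy, hyx⟩ := hex
          refine ⟨x, y, fun w hw => ?_⟩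
          by_contra hcon
          push Not at hcon
          have h3 : ({x, y, w} : Set V) ⊆ G.neighborSet u := by
            intro z hz
            rcases hz with rfl | rfl | hz
            · exact hx
            · exact hy
            · rw [Set.mem_singleton_iff] at hz
              rw [hz]
              exact hw
          have h4 : ({x, y, w} : Set V).encard = 3 := by
            rw [Set.encard_insert_of_notMem, Set.encard_pair hcon.2.symm]
            · norm_num
            · rintro (h5 | h5)
              · exact hyx h5.symm
              · exact hcon.1 h5.symm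
          have h5 := (Set.encard_le_encard h3).trans h
          rw [h4] at h5
          exact absurd h5 (by norm_num)
        · push Not at hex
          exact ⟨x, x, fun w hw => Or.inl (hex w hw)⟩)
    (by
      intro a b _
      by_cases ha : a ∈ B
      · exact Or.inl ha
      · exact Or.inr (Finset.mem_filter.2 ⟨mem_univ _, ha⟩))
  exact ⟨T, r, h1, h2⟩

end Pool.Agent.Helper14.Rsl
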