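import Pool.Agent.Helper14.Rsl.Assemble
import Pool.Agent.Helper14.Rsl.Apex
import Pool.Agent.Helper14.Rsl.Subdiv
import Pool.Agent.Helper6.Rsl.FM

/-! # Theorem F -/

set_option autoImplicit false
open Classical Finset

namespace Pool.Agent.Helper14.Rsl

open Pool.Agent.Helper30.TwoTree Pool.Agent.Helper6.Rsl

/-- Every graph built from an initial graph with `ex (n) = O (n^(3/2))` is Ramsey size linear. -/
theorem main {V : Type} [Fintype V] (T : SimpleGraph V) (r : V → ℕ) (A : Set V)
    (hB : Build T r A) (hA : ExThreeHalves (T.induce A)) : RSL T := by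
  obtain ⟨c0, hc0, hc⟩ := transfer' hA
  refine rsl_of_FM T (KK (Fintype.card V) c0) (one_le_KK _ c0) ?_
  intro X _ Γ hno S i hi
  have h := first_moment hB c0 hc0 Γ (fun Γ' S' _ hS' hlt => hc X Γ' S' hS' hlt) hno S i hi
  push_cast at h
  exact h

/-- The empty graph satisfies the hypothesis on the initial graph. -/
theorem exThreeHalves_of_isEmpty {A : Type} [IsEmpty A] (G₀ : SimpleGraph A) :
    ExThreeHalves G₀ :=
  ⟨0, fun _ _ _ => ⟨fun a => isEmptyElim a, fun a => isEmptyElim a, fun a => isEmptyElim a⟩⟩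

/-- Graphs with an independent set outside which all degrees are at most two. -/
theorem rsl_of_indep {V : Type} [Fintype V] (G : SimpleGraph V) (B : Set V)
    (hB : ∀ a ∈ B, ∀ b ∈ B, ¬ G.Adj a b) (hd : ∀ v ∉ B, (G.neighborSet v).encard ≤ 2) :
    RSL G := by
  obtain ⟨T, r, hT, hG⟩ := exists_build G B hB hd
  have h0 : IsEmpty (∅ : Set (Option V)) := Set.isEmpty_coe_sort.2 rfl
  exact (main T r ∅ hT (exThreeHalves_of_isEmpty _)).mono some (Option.some_injective V) hG

end Pool.Agent.Helper14.Rsl
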