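import Pool.Agent.Helper14.Rsl.Heavy

/-! # The second moment of the degrees -/

set_option autoImplicit false
open Classical Finset

namespace Pool.Agent.Helper14.Rsl

open Pool.Agent.Helper30.TwoTree

set_option linter.unusedSectionVars false

variable {X : Type} [Fintype X]

/-- The pattern that hosts the base of `G`: two vertices `p ≠ q` and `s` common neighbours any two
of which have `s` common neighbours. -/
def Host (s : ℕ) (Γ : SimpleGraph X) : Prop :=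
  ∃ p q, p ≠ q ∧ ∃ A ⊆ cn Γ p q, s ≤ A.card ∧
    ∀ a ∈ A, ∀ b ∈ A, a ≠ b → s ≤ (cn Γ a b).card

theorem num_n {n s i : ℝ} (hs : 1 ≤ s) (hi : 1 ≤ i) (hn : 0 ≤ n)
    (h : n ^ 2 ≤ i * ((3 * s + 1) * i * n + Real.sqrt (n * (3 * s ^ 2 * n ^ 2)) + n)) :
    n ≤ 16 * s ^ 2 * i ^ 2 := by
  by_contra hc
  push Not at hc
  have hn0 : 0 < n := lt_of_le_of_lt (by positivity) hc
  have h1 : Real.sqrt (n * (3 * s ^ 2 * n ^ 2)) ≤ n ^ 2 / (2 * i) := by
    apply Real.sqrt_le_iff.2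
    refine ⟨by positivity, ?_⟩
    rw [div_pow, le_div_iff₀ (by positivity)]
    have h2 : (n * (3 * s ^ 2 * n ^ 2)) * (2 * i) ^ 2 = (12 * s ^ 2 * i ^ 2) * n ^ 3 := by ring
    rw [h2]
    calc (12 * s ^ 2 * i ^ 2) * n ^ 3 ≤ n * n ^ 3 := by
          apply mul_le_mul_of_nonneg_right _ (by positivity)
          nlinarith [mul_pos (mul_pos (by positivity : (0 : ℝ) < s) (by positivity : (0 : ℝ) < s))
            (mul_pos (by positivity : (0 : ℝ) < i) (by positivity : (0 : ℝ) < i))]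
      _ = (n ^ 2) ^ 2 := by ring
  have h3 : i * Real.sqrt (n * (3 * s ^ 2 * n ^ 2)) ≤ n ^ 2 / 2 := by
    calc i * Real.sqrt (n * (3 * s ^ 2 * n ^ 2)) ≤ i * (n ^ 2 / (2 * i)) :=
          mul_le_mul_of_nonneg_left h1 (by positivity)
      _ = n ^ 2 / 2 := by field_simp
  have h4 : n ^ 2 / 2 ≤ (5 * s ^ 2 * i ^ 2) * n := by
    have h5 : i * ((3 * s + 1) * i * n) ≤ (4 * s ^ 2 * i ^ 2) * n := by
      have : (3 * s + 1) ≤ 4 * s ^ 2 := by nlinarith
      calc i * ((3 * s + 1) * i * n) = (3 * s + 1) * (i ^ 2 * n) := by ring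
        _ ≤ 4 * s ^ 2 * (i ^ 2 * n) := mul_le_mul_of_nonneg_right this (by positivity)
        _ = (4 * s ^ 2 * i ^ 2) * n := by ring
    have h6 : i * n ≤ (s ^ 2 * i ^ 2) * n := by
      apply mul_le_mul_of_nonneg_right _ hn
      have : 1 ≤ s ^ 2 := by nlinarith
      have : i ≤ i ^ 2 := by nlinarith
      nlinarith
    nlinarith
  have h7 : n ≤ 10 * s ^ 2 * i ^ 2 := by
    have : n * n ≤ (10 * s ^ 2 * i ^ 2) * n := by nlinarith
    exact le_of_mul_le_mul_right this hn0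
  have : 0 < s ^ 2 * i ^ 2 := by positivity
  nlinarith

/-- The second moment of the degrees, when the core has no host. -/
theorem moment (s : ℕ) (hs : 0 < s) (Γ : SimpleGraph X) (S : Finset X) (i : ℕ)
    (hi : ∀ I ⊆ S, (∀ a ∈ I, ∀ b ∈ I, ¬ Γ.Adj a b) → I.card < i)
    (hno : ¬ Host s (core s (restr Γ S))) :
    ∑ u ∈ S, ((nb Γ S u).card : ℝ) ^ 2 ≤ ((12 * (s : ℝ) ^ 2) * i) ^ 2 * S.card := by
  have hs1 : (1 : ℝ) ≤ s := by exact_mod_cast hs
  have hi0 : 0 < i := by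
    have := hi ∅ (Finset.empty_subset _) (by simp)
    omega
  have hi1 : (1 : ℝ) ≤ i := by exact_mod_cast hi0
  set n : ℝ := (S.card : ℝ) with hn
  have hn0 : 0 ≤ n := Nat.cast_nonneg _
  set d1 : X → ℝ := fun u => ((n1 s (restr Γ S) u).card : ℝ) with hd1
  set d2 : X → ℝ := fun u => ((univ.filter (fun w => (core s (restr Γ S)).Adj u w)).card : ℝ)
    with hd2
  have hdeg : ∀ u ∈ S, ((nb Γ S u).card : ℝ) = d1 u + d2 u := by
    intro u hu
    have h1 : nb Γ S u = n1 s (restr Γ S) u ∪ univ.filter (fun w => (core s (restr Γ S)).Adj u w) := by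
      ext w
      rw [mem_union, mem_n1]
      simp only [nb, mem_filter, mem_univ, true_and]
      constructor
      · rintro ⟨h1, h2⟩
        by_cases h3 : (core s (restr Γ S)).Adj u w
        · exact .inr h3
        · exact .inl ⟨⟨h2, hu, h1⟩, h3⟩
      · rintro (⟨h1, -⟩ | h1)
        · exact ⟨h1.2.2, h1.1⟩
        · have := core_le s (restr Γ S) h1
          exact ⟨this.2.2, this.1⟩
    have h2 : Disjoint (n1 s (restr Γ S) u)
        (univ.filter (fun w => (core s (restr Γ S)).Adj u w)) := by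
      rw [Finset.disjoint_left]
      intro w hw hw'
      exact (mem_n1.1 hw).2 (mem_filter.1 hw').2
    rw [h1, Finset.card_union_of_disjoint h2]
    push_cast
    rfl
  have hQ1 : ∑ u ∈ S, d1 u ^ 2 ≤ ((3 * s + 1 : ℝ) * i) ^ 2 * n := sum_sq_n1 s Γ S i hi
  have hQ2 : ∑ u ∈ S, d2 u ^ 2 ≤ 3 * (s : ℝ) ^ 2 * n ^ 2 := by
    refine heavy_or s hs (core s (restr Γ S)) S (fun a b hab => (core_le s _ hab).2.1) ?_
    intro p q hpq A hA hAs
    by_contra hcon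
    push Not at hcon
    exact hno ⟨p, q, hpq, A, hA, hAs, hcon⟩
  have hP1 : ∑ u ∈ S, d1 u ≤ (3 * s + 1 : ℝ) * i * n := by
    have h1 := sq_sum_le S d1
    have h2 : (∑ u ∈ S, d1 u) ^ 2 ≤ ((3 * s + 1 : ℝ) * i * n) ^ 2 := by
      refine h1.trans ((mul_le_mul_of_nonneg_left hQ1 hn0).trans (le_of_eq ?_))
      ring
    exact (abs_le_of_sq_le_sq' h2 (by positivity)).2
  have hP2 : ∑ u ∈ S, d2 u ≤ Real.sqrt (n * (3 * (s : ℝ) ^ 2 * n ^ 2)) := by
    apply Real.le_sqrt_of_sq_le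
    exact (sq_sum_le S d2).trans (mul_le_mul_of_nonneg_left hQ2 hn0)
  -- the size of `S`
  have hsize : n ≤ 16 * (s : ℝ) ^ 2 * (i : ℝ) ^ 2 := by
    apply num_n hs1 hi1 hn0
    have h1 := turan_bound Γ S i hi
    refine h1.trans (mul_le_mul_of_nonneg_left ?_ (by positivity))
    have h2 : ∑ u ∈ S, ((S.filter (fun w => Γ.Adj u w)).card : ℝ) =
        ∑ u ∈ S, d1 u + ∑ u ∈ S, d2 u := by
      rw [← Finset.sum_add_distrib]
      exact Finset.sum_congr rfl hdeg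
    rw [h2]
    linarith
  -- the second moment
  have h1 : ∑ u ∈ S, ((nb Γ S u).card : ℝ) ^ 2 ≤ ∑ u ∈ S, (2 * d1 u ^ 2 + 2 * d2 u ^ 2) := by
    refine Finset.sum_le_sum fun u hu => ?_
    rw [hdeg u hu]
    nlinarith [sq_nonneg (d1 u - d2 u)]
  rw [Finset.sum_add_distrib, ← Finset.mul_sum, ← Finset.mul_sum] at h1
  refine h1.trans ?_
  have h2 : 3 * (s : ℝ) ^ 2 * n ^ 2 ≤ (48 * (s : ℝ) ^ 4 * (i : ℝ) ^ 2) * n := by
    calc 3 * (s : ℝ) ^ 2 * n ^ 2 = (3 * (s : ℝ) ^ 2 * n) * n := by ring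
      _ ≤ (3 * (s : ℝ) ^ 2 * (16 * (s : ℝ) ^ 2 * (i : ℝ) ^ 2)) * n := by
          apply mul_le_mul_of_nonneg_right _ hn0
          exact mul_le_mul_of_nonneg_left hsize (by positivity)
      _ = _ := by ring
  have h3 : ((3 * s + 1 : ℝ) * i) ^ 2 * n ≤ (16 * (s : ℝ) ^ 4 * (i : ℝ) ^ 2) * n := by
    apply mul_le_mul_of_nonneg_right _ hn0
    have h4 : (3 * s + 1 : ℝ) ≤ 4 * (s : ℝ) ^ 2 := by nlinarith
    calc ((3 * s + 1 : ℝ) * i) ^ 2 ≤ (4 * (s : ℝ) ^ 2 * i) ^ 2 := by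
          apply pow_le_pow_left₀ (by positivity)
          exact mul_le_mul_of_nonneg_right h4 (by positivity)
      _ = _ := by ring
  have h5 : ((12 * (s : ℝ) ^ 2) * i) ^ 2 * n = (144 * (s : ℝ) ^ 4 * (i : ℝ) ^ 2) * n := by ring
  rw [h5]
  have h6 : 0 ≤ ((s : ℝ) ^ 4 * (i : ℝ) ^ 2) * n := by positivity
  nlinarith

/-- Few vertices of large degree. -/
theorem few_large' (s : ℕ) (hs : 0 < s) (Γ : SimpleGraph X) (S : Finset X) (i : ℕ)
    (hi : ∀ I ⊆ S, (∀ a ∈ I, ∀ b ∈ I, ¬ Γ.Adj a b) → I.card < i)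
    (hno : ¬ Host s (core s (restr Γ S))) (T : ℝ) (hT : 0 ≤ T) :
    ((S.filter (fun u => T < (nb Γ S u).card)).card : ℝ) * T ^ 2 ≤
      ((12 * (s : ℝ) ^ 2) * i) ^ 2 * S.card := by
  refine le_trans ?_ (moment s hs Γ S i hi hno)
  calc ((S.filter (fun u => T < (nb Γ S u).card)).card : ℝ) * T ^ 2
      = ∑ u ∈ S.filter (fun u => T < (nb Γ S u).card), T ^ 2 := by
        rw [Finset.sum_const, nsmul_eq_mul]
    _ ≤ ∑ u ∈ S.filter (fun u => T < (nb Γ S u).card), ((nb Γ S u).card : ℝ) ^ 2 := by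
        refine Finset.sum_le_sum fun u hu => ?_
        exact pow_le_pow_left₀ hT (Finset.mem_filter.1 hu).2.le 2
    _ ≤ ∑ u ∈ S, ((nb Γ S u).card : ℝ) ^ 2 :=
        Finset.sum_le_sum_of_subset_of_nonneg (Finset.filter_subset _ _) fun _ _ _ => by positivity

end Pool.Agent.Helper14.Rsl
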